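import Pool.Agent.H74.EH.Cx

/-!
# Robust hyperbolicity and the resolvent on the unit circle
-/

set_option autoImplicit false

open Filter Set Metric Polynomial
open scoped RealInnerProductSpace

namespace Pool.Agent.H74.EH

open Pool.Agent.H718R2.G Pool.Agent.K4H47.RH

section

variable {n : ℕ}

/-- a complex eigenvector for an eigenvalue of modulus one -/
theorem not_hyp2 {T : V n →L[ℝ] V n} {z : ℂ} (hz : ‖z‖ = 1) {w : V n × V n} (hw : w ≠ 0)
    (h : cT T w = cm z w) : ¬ IsHypMap T := by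
  intro hyp
  have hzz : z.re ^ 2 + z.im ^ 2 = 1 := by
    have := Complex.sq_norm z
    rw [hz, one_pow, Complex.normSq_apply] at this
    nlinarith
  set f : V n →ₗ[ℝ] V n := (T : V n →ₗ[ℝ] V n) with hf
  set q : ℝ[X] := X ^ 2 - C (2 * z.re) * X + 1 with hq
  have h1 : T w.1 = z.re • w.1 - z.im • w.2 := congrArg Prod.fst h
  have h2 : T w.2 = z.im • w.1 + z.re • w.2 := congrArg Prod.snd h
  have hqv : ∀ v : V n, aeval f q v = T (T v) - (2 * z.re) • T v + v := by
    intro v
    rw [hq, map_add, map_sub, map_mul, map_pow, aeval_X, aeval_C, map_one]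
    simp only [LinearMap.add_apply, LinearMap.sub_apply, Module.End.mul_apply, pow_two,
      Module.End.one_apply, Module.algebraMap_end_apply]
    rfl
  have hq1 : aeval f q w.1 = 0 := by
    rw [hqv, h1, map_sub, map_smul, map_smul, h1, h2]
    have e : z.re • (z.re • w.1 - z.im • w.2) - z.im • (z.im • w.1 + z.re • w.2) -
        (2 * z.re) • (z.re • w.1 - z.im • w.2) + w.1 = (1 - (z.re ^ 2 + z.im ^ 2)) • w.1 := by
      module
    rw [e, hzz, sub_self, zero_smul]
  have hq2 : aeval f q w.2 = 0 := by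
    rw [hqv, h2, map_add, map_smul, map_smul, h1, h2]
    have e : z.im • (z.re • w.1 - z.im • w.2) + z.re • (z.im • w.1 + z.re • w.2) -
        (2 * z.re) • (z.im • w.1 + z.re • w.2) + w.2 = (1 - (z.re ^ 2 + z.im ^ 2)) • w.2 := by
      module
    rw [e, hzz, sub_self, zero_smul]
  have hnc : ¬ IsCoprime f.charpoly q := by
    rintro ⟨u, v, huv⟩
    have key : ∀ x : V n, aeval f q x = 0 → x = 0 := by
      intro x hx
      have h3 := congrArg (fun p => aeval f p x) huv
      simp only [map_add, map_mul, LinearMap.add_apply, Module.End.mul_apply, map_one,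
        Module.End.one_apply, LinearMap.aeval_self_charpoly, hx, map_zero, LinearMap.zero_apply,
        add_zero] at h3
      exact h3.symm
    exact hw (Prod.ext (key _ hq1) (key _ hq2))
  rw [Polynomial.isCoprime_iff_aeval_ne_zero_of_isAlgClosed ℝ ℂ] at hnc
  push Not at hnc
  obtain ⟨μ, hμ1, hμ2⟩ := hnc
  refine hyp μ ?_ ?_
  · rw [IsRoot.def, eval_map_algebraMap]
    exact hμ1
  · rw [hq, map_add, map_sub, map_mul, map_pow, aeval_X, aeval_C, map_one] at hμ2
    have h3 : (μ - z.re) ^ 2 = -((z.im : ℂ) ^ 2) := by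
      have h4 : ((z.re : ℂ) ^ 2 + (z.im : ℂ) ^ 2) = 1 := by exact_mod_cast hzz
      have h5 : μ ^ 2 - (2 * z.re : ℝ) * μ + 1 = 0 := hμ2
      push_cast at h5
      linear_combination h5 + h4
    have h6 : (μ - z.re - Complex.I * z.im) * (μ - z.re + Complex.I * z.im) = 0 := by
      have : (Complex.I : ℂ) ^ 2 = -1 := Complex.I_sq
      linear_combination h3 - (z.im : ℂ) ^ 2 * this
    have h7 : μ = ⟨z.re, z.im⟩ ∨ μ = ⟨z.re, -z.im⟩ := by
      rcases mul_eq_zero.1 h6 with h8 | h8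
      · left
        have : μ = z.re + Complex.I * z.im := by linear_combination h8
        rw [this]
        apply Complex.ext <;> simp
      · right
        have : μ = z.re - Complex.I * z.im := by linear_combination h8
        rw [this]
        apply Complex.ext <;> simp
    have h9 : Complex.normSq μ = 1 := by
      rcases h7 with h8 | h8 <;> rw [h8, Complex.normSq_mk] <;> nlinarith
    rw [← Complex.sq_norm] at h9
    have := norm_nonneg μ
    nlinarith

/-- roots of the characteristic polynomial have complex eigenvectors -/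
theorem exists_pair (T : V n →L[ℝ] V n) {lam : ℂ}
    (hl : ((LinearMap.charpoly (T : V n →ₗ[ℝ] V n)).map (algebraMap ℝ ℂ)).IsRoot lam) :
    ∃ w : V n × V n, w ≠ 0 ∧ cT T w = cm lam w := by
  classical
  set b := (EuclideanSpace.basisFun (Fin n) ℝ).toBasis with hb
  set M : Matrix (Fin n) (Fin n) ℝ := LinearMap.toMatrix b b (T : V n →ₗ[ℝ] V n) with hM
  have h1 : (M.map (algebraMap ℝ ℂ)).charpoly.IsRoot lam := by
    rw [Matrix.charpoly_map, hM, LinearMap.charpoly_toMatrix]
    exact hl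
  rw [IsRoot.def, Matrix.eval_charpoly, ← Matrix.exists_mulVec_eq_zero_iff] at h1
  obtain ⟨v, hv0, hv⟩ := h1
  have hMv : ∀ i, ∑ j, (M i j : ℂ) * v j = lam * v i := by
    intro i
    have h2 := congrFun hv i
    rw [Matrix.sub_mulVec, Pi.sub_apply, Pi.zero_apply, sub_eq_zero] at h2
    have h3 : (Matrix.scalar (Fin n) lam).mulVec v i = lam * v i := by
      rw [Matrix.scalar_apply, Matrix.mulVec_diagonal]
    rw [h3] at h2
    rw [h2]
    rfl
  have hT : ∀ (x : V n) (i : Fin n), (T x) i = ∑ j, M i j * x j := by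
    intro x i
    have h4 := LinearMap.toMatrix_mulVec_repr b b (T : V n →ₗ[ℝ] V n) x
    have h5 := congrFun h4 i
    rw [← hM] at h5
    simp only [Matrix.mulVec, dotProduct, hb, OrthonormalBasis.coe_toBasis_repr_apply,
      EuclideanSpace.basisFun_repr] at h5
    exact h5.symm
  refine ⟨(WithLp.toLp 2 fun i => (v i).re, WithLp.toLp 2 fun i => (v i).im), ?_, ?_⟩
  · intro h
    apply hv0
    funext i
    have h5 : (v i).re = 0 := congrFun (congrArg (fun x : V n => (x : Fin n → ℝ)) (congrArg Prod.fst h)) i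
    have h6 : (v i).im = 0 := congrFun (congrArg (fun x : V n => (x : Fin n → ℝ)) (congrArg Prod.snd h)) i
    exact Complex.ext h5 h6
  · refine Prod.ext ?_ ?_
    · ext i
      show (T _) i = _
      rw [hT]
      have h7 := congrArg Complex.re (hMv i)
      rw [Complex.re_sum, Complex.mul_re] at h7
      simp only [Complex.mul_re, Complex.ofReal_re, Complex.ofReal_im, zero_mul, sub_zero] at h7
      exact h7
    · ext i
      show (T _) i = _
      rw [hT]
      have h7 := congrArg Complex.im (hMv i)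
      rw [Complex.im_sum, Complex.mul_im] at h7
      simp only [Complex.mul_im, Complex.ofReal_re, Complex.ofReal_im, zero_mul, add_zero] at h7
      rw [h7]
      show _ = lam.im * (v i).re + lam.re * (v i).im
      ring

theorem res1 {D : V n →L[ℝ] V n} {ε Λ : ℝ} (hε : 0 < ε) (hε1 : ε ≤ 1) (hΛ : 1 ≤ Λ)
    (hDl : ∀ x, ‖x‖ ≤ Λ * ‖D x‖) (hDu : ∀ x, ‖D x‖ ≤ Λ * ‖x‖)
    (h : ∀ B : V n →L[ℝ] V n, ‖B‖ ≤ ε → IsHypMap ((ContinuousLinearMap.id ℝ (V n) + B).comp D))
    {z : ℂ} (hz : ‖z‖ = 1) {a b : V n} (ha : ‖a‖ = 1) (hb : ‖b‖ ≤ 1) {δ : ℝ}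
    (hδ : δ = ε ^ 2 / (36 * Λ ^ 3))
    (h1 : ‖D a - (z.re • a - z.im • b)‖ ≤ δ) (h2 : ‖D b - (z.im • a + z.re • b)‖ ≤ δ) : False := by
  have hΛ0 : 0 < Λ := by linarith
  have hzz : z.re ^ 2 + z.im ^ 2 = 1 := by
    have := Complex.sq_norm z
    rw [hz, one_pow, Complex.normSq_apply] at this
    nlinarith
  set c := z.re with hc
  set s := z.im with hs
  have hc1 : |c| ≤ 1 := by
    rw [← sq_le_one_iff_abs_le_one]
    nlinarith [sq_nonneg s]
  have hs1 : |s| ≤ 1 := by
    rw [← sq_le_one_iff_abs_le_one]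
    nlinarith [sq_nonneg c]
  set t : ℝ := ⟪a, b⟫ with ht
  have ht1 : |t| ≤ 1 := by
    have h3 := abs_real_inner_le_norm a b
    rw [ha, one_mul] at h3
    exact h3.trans hb
  set e : V n := b - t • a with he
  have hbe : b = t • a + e := by rw [he]; abel
  have hae : ⟪a, e⟫ = 0 := by
    rw [he, inner_sub_right, real_inner_smul_right, real_inner_self_eq_norm_sq, ha]
    ring
  have hea : ⟪e, a⟫ = 0 := by rw [real_inner_comm]; exact hae
  set r1 : V n := D a - (c • a - s • b) with hr1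
  set r2 : V n := D b - (s • a + c • b) with hr2
  have hδ0 : 0 < δ := by rw [hδ]; positivity
  have ha0 : a ≠ 0 := by
    intro h0
    rw [h0, norm_zero] at ha
    norm_num at ha
  set τ : ℝ := ε / (12 * Λ ^ 2) with hτ
  have hτ0 : 0 < τ := by rw [hτ]; positivity
  have hτ1 : τ ≤ 1 := by
    rw [hτ, div_le_one (by positivity)]
    nlinarith
  by_cases hcase : ‖e‖ ≤ τ
  · have key : (s * (1 + t ^ 2)) • a = D e - (c + t * s) • e - r2 + t • r1 := by
      rw [hr1, hr2, he, map_sub, map_smul]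
      module
    have hn : |s| * (1 + t ^ 2) ≤ 3 * Λ * τ + 2 * δ := by
      have e1 : ‖(s * (1 + t ^ 2)) • a‖ = |s| * (1 + t ^ 2) := by
        rw [norm_smul, ha, mul_one, Real.norm_eq_abs, abs_mul, abs_of_pos (by positivity : 0 < 1 + t ^ 2)]
      rw [← e1, key]
      have e2 : ‖D e - (c + t * s) • e - r2 + t • r1‖ ≤ ‖D e‖ + ‖(c + t * s) • e‖ + ‖r2‖ + ‖t • r1‖ := by
        refine (norm_add_le _ _).trans ?_
        have e3 := norm_sub_le (D e - (c + t * s) • e) r2
        have e4 := norm_sub_le (D e) ((c + t * s) • e)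
        linarith
      have e5 : ‖(c + t * s) • e‖ ≤ 2 * τ := by
        rw [norm_smul, Real.norm_eq_abs]
        have e6 : |c + t * s| ≤ 2 := by
          refine (abs_add_le _ _).trans ?_
          rw [abs_mul]
          have : |t| * |s| ≤ 1 * 1 := mul_le_mul ht1 hs1 (abs_nonneg _) (by norm_num)
          linarith
        exact mul_le_mul e6 hcase (norm_nonneg _) (by norm_num)
      have e7 : ‖t • r1‖ ≤ δ := by
        rw [norm_smul, Real.norm_eq_abs]
        calc |t| * ‖r1‖ ≤ 1 * δ := mul_le_mul ht1 h1 (norm_nonneg _) (by norm_num)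
          _ = δ := one_mul _
      have e8 : ‖D e‖ ≤ Λ * τ := (hDu e).trans (mul_le_mul_of_nonneg_left hcase hΛ0.le)
      have e9 : 2 * τ ≤ 2 * (Λ * τ) := by nlinarith
      linarith
    have hs2 : |s| ≤ 3 * Λ * τ + 2 * δ := by
      have : |s| * 1 ≤ |s| * (1 + t ^ 2) :=
        mul_le_mul_of_nonneg_left (by nlinarith [sq_nonneg t]) (abs_nonneg _)
      linarith
    obtain ⟨σ, hσ1, hσ⟩ : ∃ σ : ℝ, |σ| = 1 ∧ |c - σ| ≤ |s| := by
      have h3 : 1 - |c| ≤ |s| := by
        have h4 : |s| ^ 2 ≤ |s| := by nlinarith [abs_nonneg s]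
        have h5 : |c| ^ 2 ≤ |c| := by nlinarith [abs_nonneg c]
        rw [sq_abs] at h4 h5
        linarith
      rcases le_total 0 c with h0 | h0
      · refine ⟨1, abs_one, ?_⟩
        rw [abs_of_nonneg h0] at h3 hc1
        rw [abs_sub_comm, abs_of_nonneg (by linarith)]
        exact h3
      · refine ⟨-1, by rw [abs_neg, abs_one], ?_⟩
        rw [abs_of_nonpos h0] at h3 hc1
        rw [sub_neg_eq_add, abs_of_nonneg (by linarith)]
        linarith
    set k : V n := σ • a - D a with hk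
    have hk1 : ‖k‖ ≤ 6 * Λ * τ + 5 * δ := by
      have e1 : k = -r1 - (c - σ) • a + s • b := by
        rw [hk, hr1]
        module
      have e2 : ‖k‖ ≤ ‖r1‖ + ‖(c - σ) • a‖ + ‖s • b‖ := by
        rw [e1]
        refine (norm_add_le _ _).trans ?_
        have := norm_sub_le (-r1) ((c - σ) • a)
        rw [norm_neg] at this
        linarith
      have e3 : ‖(c - σ) • a‖ ≤ |s| := by
        rw [norm_smul, ha, mul_one]
        exact hσ
      have e4 : ‖s • b‖ ≤ |s| := by
        rw [norm_smul, Real.norm_eq_abs]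
        exact mul_le_of_le_one_right (abs_nonneg _) hb
      linarith
    have hDa : 1 ≤ Λ * ‖D a‖ := by
      have := hDl a
      rwa [ha] at this
    have hDa0 : 0 < ‖D a‖ := by
      by_contra h0
      have : ‖D a‖ = 0 := le_antisymm (not_lt.1 h0) (norm_nonneg _)
      rw [this, mul_zero] at hDa
      norm_num at hDa
    set B : V n →L[ℝ] V n := ((‖D a‖ ^ 2)⁻¹ • (innerSL ℝ (D a))).smulRight k with hB
    have hBv : ∀ x, B x = ((‖D a‖ ^ 2)⁻¹ * ⟪D a, x⟫) • k := fun x => rfl
    have hBa : B (D a) = k := by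
      rw [hBv, real_inner_self_eq_norm_sq, inv_mul_cancel₀ (by positivity), one_smul]
    have hBn : ‖B‖ ≤ ε := by
      refine ContinuousLinearMap.opNorm_le_bound _ hε.le fun x => ?_
      rw [hBv, norm_smul, Real.norm_eq_abs, abs_mul, abs_of_nonneg (by positivity)]
      have e1 : |⟪D a, x⟫| ≤ ‖D a‖ * ‖x‖ := abs_real_inner_le_norm _ _
      have e2 : (‖D a‖ ^ 2)⁻¹ * |⟪D a, x⟫| ≤ Λ * ‖x‖ := by
        rw [inv_mul_le_iff₀ (by positivity)]
        refine e1.trans ?_
        calc ‖D a‖ * ‖x‖ = 1 * (‖D a‖ * ‖x‖) := (one_mul _).symm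
          _ ≤ (Λ * ‖D a‖) * (‖D a‖ * ‖x‖) := mul_le_mul_of_nonneg_right hDa (by positivity)
          _ = ‖D a‖ ^ 2 * (Λ * ‖x‖) := by ring
      calc (‖D a‖ ^ 2)⁻¹ * |⟪D a, x⟫| * ‖k‖ ≤ (Λ * ‖x‖) * (6 * Λ * τ + 5 * δ) :=
            mul_le_mul e2 hk1 (norm_nonneg _) (by positivity)
        _ = (Λ * (6 * Λ * τ + 5 * δ)) * ‖x‖ := by ring
        _ ≤ ε * ‖x‖ := by
          refine mul_le_mul_of_nonneg_right ?_ (norm_nonneg _)
          have e3 : Λ * (6 * Λ * τ) = ε / 2 := by
            rw [hτ]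
            field_simp
            ring
          have e4 : Λ * (5 * δ) ≤ ε / 2 := by
            rw [hδ]
            rw [show Λ * (5 * (ε ^ 2 / (36 * Λ ^ 3))) = 5 * ε ^ 2 / (36 * Λ ^ 2) by field_simp]
            rw [div_le_iff₀ (by positivity)]
            have : 1 ≤ Λ ^ 2 := one_le_pow₀ hΛ
            nlinarith [mul_pos hε hε]
          linarith
    refine not_hyp2 (z := (σ : ℂ)) (w := (a, 0)) (by rw [Complex.norm_real, Real.norm_eq_abs, hσ1])
      (fun h0 => ha0 (congrArg Prod.fst h0)) ?_ (h B hBn)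
    rw [cm_real]
    refine Prod.ext ?_ ?_
    · show ((ContinuousLinearMap.id ℝ (V n) + B).comp D) a = σ • a
      rw [ContinuousLinearMap.comp_apply, add_apply, ContinuousLinearMap.id_apply, hBa, hk]
      abel
    · show ((ContinuousLinearMap.id ℝ (V n) + B).comp D) 0 = σ • 0
      rw [map_zero, smul_zero]
  · have hcase' : τ < ‖e‖ := not_le.1 hcase
    have he0 : 0 < ‖e‖ := hτ0.trans hcase'
    set k2 : V n := -r2 + t • r1 with hk2
    have hk2n : ‖k2‖ ≤ 2 * δ := by
      refine (norm_add_le _ _).trans ?_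
      rw [norm_neg, norm_smul, Real.norm_eq_abs]
      have : |t| * ‖r1‖ ≤ 1 * δ := mul_le_mul ht1 h1 (norm_nonneg _) (by norm_num)
      linarith
    set S : V n →L[ℝ] V n := (innerSL ℝ a).smulRight (-r1) +
      ((‖e‖ ^ 2)⁻¹ • (innerSL ℝ e)).smulRight k2 with hS
    have hSv : ∀ x, S x = ⟪a, x⟫ • (-r1) + ((‖e‖ ^ 2)⁻¹ * ⟪e, x⟫) • k2 := fun x => rfl
    have hSa : S a = -r1 := by
      rw [hSv, real_inner_self_eq_norm_sq, ha, hea]
      simp
    have hSe : S e = k2 := by
      rw [hSv, hae, real_inner_self_eq_norm_sq, inv_mul_cancel₀ (by positivity)]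
      simp
    have hSb : S b = -r2 := by
      rw [hbe, map_add, map_smul, hSa, hSe, hk2]
      module
    have hSn : ∀ x, ‖S x‖ ≤ 3 * δ / τ * ‖x‖ := by
      intro x
      rw [hSv]
      refine (norm_add_le _ _).trans ?_
      rw [norm_smul, norm_smul, norm_neg, Real.norm_eq_abs, Real.norm_eq_abs, abs_mul,
        abs_of_nonneg (by positivity : 0 ≤ (‖e‖ ^ 2)⁻¹)]
      have e1 : |⟪a, x⟫| ≤ ‖x‖ := by
        have := abs_real_inner_le_norm a x
        rwa [ha, one_mul] at this
      have e2 : |⟪a, x⟫| * ‖r1‖ ≤ ‖x‖ * (δ / τ) := by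
        refine mul_le_mul e1 (h1.trans ?_) (norm_nonneg _) (norm_nonneg _)
        rw [le_div_iff₀ hτ0]
        nlinarith
      have e3 : (‖e‖ ^ 2)⁻¹ * |⟪e, x⟫| ≤ τ⁻¹ * ‖x‖ := by
        rw [inv_mul_le_iff₀ (by positivity)]
        refine (abs_real_inner_le_norm e x).trans ?_
        rw [show ‖e‖ ^ 2 * (τ⁻¹ * ‖x‖) = (‖e‖ * τ⁻¹) * (‖e‖ * ‖x‖) by ring]
        have : 1 ≤ ‖e‖ * τ⁻¹ := by
          rw [← div_eq_mul_inv, one_le_div hτ0]
          exact hcase'.le
        calc ‖e‖ * ‖x‖ = 1 * (‖e‖ * ‖x‖) := (one_mul _).symm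
          _ ≤ _ := mul_le_mul_of_nonneg_right this (by positivity)
      have e4 : (‖e‖ ^ 2)⁻¹ * |⟪e, x⟫| * ‖k2‖ ≤ (τ⁻¹ * ‖x‖) * (2 * δ) :=
        mul_le_mul e3 hk2n (norm_nonneg _) (by positivity)
      calc _ ≤ ‖x‖ * (δ / τ) + (τ⁻¹ * ‖x‖) * (2 * δ) := add_le_add e2 e4
        _ = _ := by
          field_simp
          ring
    have hinj : Function.Injective (D : V n →ₗ[ℝ] V n) := by
      rw [injective_iff_map_eq_zero]
      intro x hx
      have h3 := hDl x
      have h4 : D x = 0 := hx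
      rw [h4, norm_zero, mul_zero] at h3
      exact norm_le_zero_iff.1 h3
    set Q := LinearEquiv.ofInjectiveEndo (D : V n →ₗ[ℝ] V n) hinj with hQ
    have hQD : ∀ x, Q.symm (D x) = x := by
      intro x
      have : D x = Q x := rfl
      rw [this, LinearEquiv.symm_apply_apply]
    have hDQ : ∀ x, D (Q.symm x) = x := by
      intro x
      have : D (Q.symm x) = Q (Q.symm x) := rfl
      rw [this, LinearEquiv.apply_symm_apply]
    set B : V n →L[ℝ] V n := LinearMap.toContinuousLinearMap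
      ((S : V n →ₗ[ℝ] V n).comp (Q.symm : V n →ₗ[ℝ] V n)) with hB
    have hBv : ∀ x, B x = S (Q.symm x) := fun x => rfl
    have hBn : ‖B‖ ≤ ε := by
      refine ContinuousLinearMap.opNorm_le_bound _ hε.le fun x => ?_
      rw [hBv]
      refine (hSn _).trans ?_
      have e1 := hDl (Q.symm x)
      rw [hDQ] at e1
      calc 3 * δ / τ * ‖Q.symm x‖ ≤ 3 * δ / τ * (Λ * ‖x‖) :=
            mul_le_mul_of_nonneg_left e1 (by positivity)
        _ = (3 * δ / τ * Λ) * ‖x‖ := by ring
        _ ≤ ε * ‖x‖ := by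
          refine mul_le_mul_of_nonneg_right (le_of_eq ?_) (norm_nonneg _)
          rw [hδ, hτ]
          field_simp
          ring
    refine not_hyp2 (z := z) (w := (a, b)) hz (fun h0 => ha0 (congrArg Prod.fst h0)) ?_ (h B hBn)
    refine Prod.ext ?_ ?_
    · show ((ContinuousLinearMap.id ℝ (V n) + B).comp D) a = z.re • a - z.im • b
      rw [ContinuousLinearMap.comp_apply, add_apply, ContinuousLinearMap.id_apply, hBv, hQD, hSa,
        hr1]
      abel
    · show ((ContinuousLinearMap.id ℝ (V n) + B).comp D) b = z.im • a + z.re • b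
      rw [ContinuousLinearMap.comp_apply, add_apply, ContinuousLinearMap.id_apply, hBv, hQD, hSb,
        hr2]
      abel

/-- **Robustly hyperbolic maps have no approximate eigenvalues on the unit circle.** -/
theorem resolvent {D : V n →L[ℝ] V n} {ε Λ : ℝ} (hε : 0 < ε) (hε1 : ε ≤ 1) (hΛ : 1 ≤ Λ)
    (hDl : ∀ x, ‖x‖ ≤ Λ * ‖D x‖) (hDu : ∀ x, ‖D x‖ ≤ Λ * ‖x‖)
    (h : ∀ B : V n →L[ℝ] V n, ‖B‖ ≤ ε → IsHypMap ((ContinuousLinearMap.id ℝ (V n) + B).comp D))
    {z : ℂ} (hz : ‖z‖ = 1) (w : V n × V n) :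
    ε ^ 2 / (36 * Λ ^ 3) * ‖w‖ ≤ ‖cT D w - cm z w‖ := by
  have main : ∀ a b : V n, ‖b‖ ≤ ‖a‖ →
      ε ^ 2 / (36 * Λ ^ 3) * ‖a‖ ≤ ‖cT D (a, b) - cm z (a, b)‖ := by
    intro a b hab
    rcases eq_or_ne a 0 with rfl | ha0
    · rw [norm_zero, mul_zero]
      exact norm_nonneg _
    · have ha : 0 < ‖a‖ := norm_pos_iff.2 ha0
      by_contra hcon
      push Not at hcon
      set c : ℝ := ‖a‖⁻¹ with hc
      have hc0 : 0 < c := inv_pos.2 ha
      have hca : c * ‖a‖ = 1 := inv_mul_cancel₀ ha.ne'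
      have h1 : ‖cT D (a, b) - cm z (a, b)‖ * c ≤ ε ^ 2 / (36 * Λ ^ 3) := by
        have := mul_le_mul_of_nonneg_right hcon.le hc0.le
        rwa [mul_assoc, mul_comm ‖a‖ c, hca, mul_one] at this
      have h2 : ‖D a - (z.re • a - z.im • b)‖ ≤ ‖cT D (a, b) - cm z (a, b)‖ :=
        norm_fst_le (cT D (a, b) - cm z (a, b))
      have h3 : ‖D b - (z.im • a + z.re • b)‖ ≤ ‖cT D (a, b) - cm z (a, b)‖ :=
        norm_snd_le (cT D (a, b) - cm z (a, b))
      refine res1 hε hε1 hΛ hDl hDu h hz (a := c • a) (b := c • b) ?_ ?_ rfl ?_ ?_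
      · rw [norm_smul, Real.norm_eq_abs, abs_of_pos hc0, hca]
      · rw [norm_smul, Real.norm_eq_abs, abs_of_pos hc0]
        calc c * ‖b‖ ≤ c * ‖a‖ := mul_le_mul_of_nonneg_left hab hc0.le
          _ = 1 := hca
      · have e : D (c • a) - (z.re • c • a - z.im • c • b) = c • (D a - (z.re • a - z.im • b)) := by
          rw [map_smul]
          module
        rw [e, norm_smul, Real.norm_eq_abs, abs_of_pos hc0, mul_comm]
        exact (mul_le_mul_of_nonneg_right h2 hc0.le).trans h1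
      · have e : D (c • b) - (z.im • c • a + z.re • c • b) = c • (D b - (z.im • a + z.re • b)) := by
          rw [map_smul]
          module
        rw [e, norm_smul, Real.norm_eq_abs, abs_of_pos hc0, mul_comm]
        exact (mul_le_mul_of_nonneg_right h3 hc0.le).trans h1
  obtain ⟨a, b⟩ := w
  rcases le_total ‖b‖ ‖a‖ with hab | hab
  · have h1 := main a b hab
    rwa [Prod.norm_def, show max ‖(a, b).1‖ ‖(a, b).2‖ = ‖a‖ from max_eq_left hab]
  · have h1 := main b (-a) (by rwa [norm_neg])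
    rw [Prod.norm_def, show max ‖(a, b).1‖ ‖(a, b).2‖ = ‖b‖ from max_eq_right hab]
    refine h1.trans (le_of_eq ?_)
    have e1 : cT D (b, -a) - cm z (b, -a) = ((cT D (a, b) - cm z (a, b)).2, -(cT D (a, b) - cm z (a, b)).1) := by
      refine Prod.ext ?_ ?_
      · show D b - (z.re • b - z.im • -a) = D b - (z.im • a + z.re • b)
        module
      · show D (-a) - (z.im • b + z.re • -a) = -(D a - (z.re • a - z.im • b))
        rw [map_neg]
        module
    rw [e1, Prod.norm_def, Prod.norm_def, norm_neg, max_comm]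

/-- approximate eigenvalues and the spectrum -/
theorem eig_of_res {T : V n →L[ℝ] V n} (hinj : Function.Injective T) {δ : ℝ} (hδ : 0 < δ)
    (hδ1 : δ ≤ 1)
    (hres : ∀ (z : ℂ), ‖z‖ = 1 → ∀ w : V n × V n, δ * ‖w‖ ≤ ‖cT T w - cm z w‖) {lam : ℂ}
    (hl : ((LinearMap.charpoly (T : V n →ₗ[ℝ] V n)).map (algebraMap ℝ ℂ)).IsRoot lam) :
    δ / 4 ≤ |Real.log ‖lam‖| := by
  obtain ⟨w, hw0, hw⟩ := exists_pair T hl
  have hwp : 0 < ‖w‖ := norm_pos_iff.2 hw0
  rcases eq_or_ne lam 0 with rfl | hlam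
  · exfalso
    rw [cm_zero'] at hw
    apply hw0
    refine Prod.ext ?_ ?_
    · apply hinj
      rw [Prod.fst_zero, map_zero]
      exact congrArg Prod.fst hw
    · apply hinj
      rw [Prod.snd_zero, map_zero]
      exact congrArg Prod.snd hw
  · have hp : 0 < ‖lam‖ := norm_pos_iff.2 hlam
    have hpC : ((‖lam‖ : ℝ) : ℂ) ≠ 0 := by exact_mod_cast hp.ne'
    have h1 : ‖lam / ‖lam‖‖ = 1 := by
      rw [norm_div, Complex.norm_real, norm_norm, div_self hp.ne']
    have h2 := hres (lam / ‖lam‖) h1 w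
    rw [hw, ← cm_sub'] at h2
    have h3 : ‖lam - lam / ‖lam‖‖ = |‖lam‖ - 1| := by
      have e : lam - lam / ‖lam‖ = (((‖lam‖ - 1 : ℝ)) : ℂ) * (lam / ‖lam‖) := by
        push_cast
        field_simp
      rw [e, norm_mul, h1, mul_one, Complex.norm_real, Real.norm_eq_abs]
    have h4 := norm_cm_le (lam - lam / ‖lam‖) w
    rw [h3] at h4
    have h5 : δ ≤ 2 * |‖lam‖ - 1| := by
      have := h2.trans h4
      exact le_of_mul_le_mul_right this hwp
    rcases le_total 1 ‖lam‖ with h6 | h6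
    · rw [abs_of_nonneg (by linarith)] at h5
      have h7 := Real.one_sub_inv_le_log_of_pos hp
      have h8 : δ / 4 ≤ 1 - ‖lam‖⁻¹ := by
        rcases le_total ‖lam‖ 2 with h9 | h9
        · have h10 : δ / 4 * ‖lam‖ ≤ ‖lam‖ - 1 := by nlinarith
          have h11 : (δ / 4 * ‖lam‖) * ‖lam‖⁻¹ ≤ (‖lam‖ - 1) * ‖lam‖⁻¹ :=
            mul_le_mul_of_nonneg_right h10 (inv_pos.2 hp).le
          rw [mul_assoc, mul_inv_cancel₀ hp.ne', mul_one, sub_mul, mul_inv_cancel₀ hp.ne',
            one_mul] at h11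
          exact h11
        · have h10 : ‖lam‖⁻¹ ≤ 2⁻¹ := inv_anti₀ (by norm_num) h9
          norm_num at h10
          linarith
      exact (h8.trans h7).trans (le_abs_self _)
    · rw [abs_of_nonpos (by linarith)] at h5
      have h7 := Real.log_le_sub_one_of_pos hp
      refine le_trans ?_ (neg_le_abs _)
      linarith

end

end Pool.Agent.H74.EH
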