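import Pool.Agent.H74.G.R_seed8.W564.SC.LibE
import Pool.Agent.H74.EH.Rob

/-!
# Fast returns: the first return at a suitable scale is isolated and divides the return time
-/

set_option autoImplicit false

open Filter Set Metric

namespace Pool.Agent.H74.EH

open Pool.Agent.H718R2.G Pool.Agent.W564.SC Pool.Agent.K4H47.RH

/-- the constant of the chain lemma -/
def c1 (D : ℕ) : ℕ := 40 * (D + 1) + 5

/-- the exponents of the scales -/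
def ee (k D : ℕ) : ℕ → ℕ
  | 0 => c1 D
  | i + 1 => k * (ee k D i + 1) + c1 D

theorem ee_ge (k D i : ℕ) : c1 D ≤ ee k D i := by
  cases i with
  | zero => exact le_rfl
  | succ i => exact Nat.le_add_left _ _

theorem ee_mono {k D : ℕ} (hk : 1 ≤ k) : Monotone (ee k D) := by
  refine monotone_nat_of_le_succ fun i => ?_
  show ee k D i ≤ k * (ee k D i + 1) + c1 D
  nlinarith [Nat.zero_le (ee k D i)]

theorem t_chn : S_CHN := Pool.Agent.W131.SC.chn Pool.Agent.W357.SC.lb Pool.Agent.W19.SC.ind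

section

variable {D m : ℕ} {Λ : ℝ} {P : ℤ → Prop} {v : ℤ → V D} {A : ℤ → V D →L[ℝ] V D}

/-- the first return at one of `D + 2` scales is much closer than the scale -/
theorem chain {k : ℕ} (hk : 1 ≤ k) (hAC : AC D m Λ P v A) (hΛ : 16 ≤ Λ)
    (hΛD : 2 * ((D : ℝ) + 1) ≤ Λ) (hm : (m : ℝ) ≤ Λ) {t : ℕ} (ht : 1 ≤ t) (htm : t ≤ m)
    (hPt : P t) (hvt : ‖v t‖ ≤ Λ⁻¹ ^ ee k D (D + 1)) :
    ∃ i ≤ D + 1, ∃ q : ℕ, 1 ≤ q ∧ q ≤ t ∧ P q ∧ ‖v q‖ ≤ Λ⁻¹ ^ (k * (ee k D i + 1)) ∧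
      ∀ j : ℕ, 0 < j → j < q → P j → Λ⁻¹ ^ ee k D i < ‖v j‖ := by
  classical
  have hΛ0 : 0 < Λ := by linarith
  have hL0 : 0 < Λ⁻¹ := inv_pos.2 hΛ0
  have hL1 : Λ⁻¹ ≤ 1 := inv_le_one_of_one_le₀ (by linarith)
  by_contra hno
  push Not at hno
  have hex : ∀ i ≤ D + 1, ∃ q : ℕ, 1 ≤ q ∧ P q ∧ ‖v q‖ ≤ Λ⁻¹ ^ ee k D i := by
    intro i hi
    exact ⟨t, ht, hPt, hvt.trans (pow_le_pow_of_le_one hL0.le hL1 (ee_mono hk hi))⟩
  have hsel : ∀ i : ℕ, ∃ q : ℕ, i ≤ D + 1 → (1 ≤ q ∧ q ≤ t ∧ P q ∧ ‖v q‖ ≤ Λ⁻¹ ^ ee k D i ∧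
      ∀ j : ℕ, 0 < j → j < q → P j → Λ⁻¹ ^ ee k D i < ‖v j‖) := by
    intro i
    by_cases hi : i ≤ D + 1
    · refine ⟨Nat.find (hex i hi), fun _ => ?_⟩
      obtain ⟨h1, h2, h3⟩ := Nat.find_spec (hex i hi)
      refine ⟨h1, Nat.find_min' (hex i hi) ⟨ht, hPt, hvt.trans
        (pow_le_pow_of_le_one hL0.le hL1 (ee_mono hk hi))⟩, h2, h3, fun j hj1 hj2 hj3 => ?_⟩
      by_contra h4
      exact Nat.find_min (hex i hi) hj2 ⟨hj1, hj3, not_lt.1 h4⟩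
    · exact ⟨0, fun h => absurd h hi⟩
  choose q hq using hsel
  have hlow : ∀ i ≤ D + 1, Λ⁻¹ ^ (k * (ee k D i + 1)) < ‖v (q i)‖ := by
    intro i hi
    obtain ⟨h1, h2, h3, h4, h5⟩ := hq i hi
    by_contra h6
    obtain ⟨j, hj1, hj2, hj3, hj4⟩ := hno i hi (q i) h1 h2 h3 (not_lt.1 h6)
    exact absurd (h5 j hj1 hj2 hj3) (not_lt.2 hj4)
  have hstep : ∀ i, i + 1 ≤ D + 1 → ‖v (q (i + 1))‖ ≤ Λ⁻¹ ^ c1 D * ‖v (q i)‖ ∧ q i < q (i + 1) := by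
    intro i hi
    have h6 : ‖v (q (i + 1))‖ ≤ Λ⁻¹ ^ c1 D * Λ⁻¹ ^ (k * (ee k D i + 1)) := by
      refine (hq (i + 1) hi).2.2.2.1.trans (le_of_eq ?_)
      show Λ⁻¹ ^ (k * (ee k D i + 1) + c1 D) = _
      rw [pow_add, mul_comm]
    have h7 : ‖v (q (i + 1))‖ ≤ Λ⁻¹ ^ c1 D * ‖v (q i)‖ :=
      h6.trans (mul_le_mul_of_nonneg_left (hlow i (by omega)).le (by positivity))
    refine ⟨h7, ?_⟩
    have h8 : 0 < ‖v (q i)‖ := lt_trans (by positivity) (hlow i (by omega))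
    have h9 : Λ⁻¹ ^ c1 D < 1 := pow_lt_one₀ hL0.le
      (lt_of_le_of_lt (inv_anti₀ (by norm_num : (0:ℝ) < 16) hΛ) (by norm_num)) (by unfold c1; omega)
    obtain ⟨h1, h2, h3, h4, h5⟩ := hq i (by omega)
    obtain ⟨h1', h2', h3', h4', h5'⟩ := hq (i + 1) hi
    have h10 : ‖v (q (i + 1))‖ < ‖v (q i)‖ := lt_of_le_of_lt h7 (by nlinarith)
    rcases lt_trichotomy (q i) (q (i + 1)) with h11 | h11 | h11
    · exact h11
    · rw [h11] at h10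
      exact absurd h10 (lt_irrefl _)
    · exfalso
      have := h5 _ (by omega) h11 h3'
      have h12 : ‖v (q (i + 1))‖ ≤ Λ⁻¹ ^ ee k D i :=
        h4'.trans (pow_le_pow_of_le_one hL0.le hL1 (ee_mono hk (Nat.le_succ i)))
      linarith
  have hc : Λ⁻¹ ^ c1 D ≤ 1 := pow_le_one₀ hL0.le hL1
  have hpair : ∀ i j, i < j → j ≤ D + 1 → ‖v (q j)‖ ≤ Λ⁻¹ ^ c1 D * ‖v (q i)‖ ∧ q i < q j := by
    intro i j hij
    induction j with
    | zero => omega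
    | succ j ih =>
      intro hj
      obtain ⟨h4, h5⟩ := hstep j hj
      rcases Nat.lt_succ_iff_lt_or_eq.1 hij with h1 | rfl
      · obtain ⟨h2, h3⟩ := ih h1 (by omega)
        refine ⟨h4.trans ?_, h3.trans h5⟩
        refine mul_le_mul_of_nonneg_left (h2.trans ?_) (by positivity)
        exact mul_le_of_le_one_left (norm_nonneg _) hc
      · exact ⟨h4, h5⟩
  refine t_chn D m Λ P v A hAC hΛ hΛD hm (fun i : Fin (D + 2) => (q (D + 1 - i) : ℤ)) ?_ ?_ ?_ ?_ ?_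
  · intro i
    obtain ⟨h1, h2, h3, h4, h5⟩ := hq (D + 1 - i) (by omega)
    exact ⟨by exact_mod_cast h1, by exact_mod_cast h2.trans htm, h3⟩
  · intro i j hij
    have := (hpair (D + 1 - j) (D + 1 - i) (by have := j.2; omega) (by omega)).2
    exact_mod_cast this
  · exact lt_trans (by positivity) (hlow (D + 1 - (0 : Fin (D + 2))) (by omega))
  · intro i j hij
    exact (hpair (D + 1 - j) (D + 1 - i) (by have := j.2; omega) (by omega)).1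
  · intro i
    exact (hq (D + 1 - i) (by omega)).2.2.2.1.trans
      (pow_le_pow_of_le_one hL0.le hL1 (ee_ge _ _ _))

/-- multiples of a return time -/
theorem mult (hAC : AC D m Λ P v A) (hΛ : 16 ≤ Λ) (hm : (m : ℝ) ≤ Λ) {q : ℕ} (hqm : q ≤ m)
    (hPq : P q) (hvq : ‖v q‖ ≤ Λ⁻¹ ^ 5) :
    ∀ j : ℕ, j * q ≤ m → P (j * q : ℕ) ∧ ‖v (j * q : ℕ)‖ ≤ 2 * j * Λ * ‖v q‖ := by
  have hΛ0 : 0 < Λ := by linarith
  have hL0 : 0 < Λ⁻¹ := inv_pos.2 hΛ0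
  have hL1 : Λ⁻¹ ≤ 1 := inv_le_one_of_one_le₀ (by linarith)
  have hq0 : 0 ≤ ‖v q‖ := norm_nonneg _
  have hΛL : Λ * Λ⁻¹ = 1 := mul_inv_cancel₀ hΛ0.ne'
  have hvq1 : ‖v q‖ ≤ 1 := hvq.trans (pow_le_one₀ hL0.le hL1)
  intro j
  induction j with
  | zero =>
    intro _
    obtain ⟨h1, h2, _⟩ := hAC.zero
    rw [zero_mul]
    refine ⟨by exact_mod_cast h1, ?_⟩
    rw [Nat.cast_zero, h2, norm_zero]
    positivity
  | succ j ih =>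
    intro hj
    rcases Nat.eq_zero_or_pos q with hq | hq
    · subst hq
      rw [mul_zero]
      obtain ⟨h1, h2, _⟩ := hAC.zero
      refine ⟨by exact_mod_cast h1, ?_⟩
      rw [Nat.cast_zero, h2, norm_zero]
      positivity
    have hj1 : j * q ≤ m := le_trans (Nat.mul_le_mul_right q (Nat.le_succ j)) hj
    obtain ⟨h1, h2⟩ := ih hj1
    have hjm : (j : ℝ) ≤ Λ := by
      refine le_trans ?_ hm
      have : j ≤ m := le_trans (Nat.le_mul_of_pos_right j hq) hj1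
      exact_mod_cast this
    have h3 : ‖v (j * q : ℕ)‖ ≤ 1 / 8 := by
      refine h2.trans ?_
      have e1 : 2 * (j : ℝ) * Λ * ‖v q‖ ≤ 2 * Λ * Λ * Λ⁻¹ ^ 5 := by
        refine mul_le_mul ?_ hvq hq0 (by positivity)
        have := mul_le_mul_of_nonneg_right hjm hΛ0.le
        nlinarith
      refine e1.trans ?_
      have e2 : 2 * Λ * Λ * Λ⁻¹ ^ 5 = 2 * Λ⁻¹ ^ 3 := by
        field_simp
      rw [e2]
      have e3 : Λ⁻¹ ≤ 1 / 16 := by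
        rw [one_div]
        exact inv_anti₀ (by norm_num) hΛ
      have e4 : Λ⁻¹ ^ 3 ≤ 1 / 4096 := (pow_le_pow_left₀ hL0.le e3 3).trans (by norm_num)
      linarith
    have h4 : ‖v q‖ ≤ Λ⁻¹ ^ 2 := hvq.trans (pow_le_pow_of_le_one hL0.le hL1 (by norm_num))
    have hjq : ((j * q : ℕ) : ℤ) ≤ m := by exact_mod_cast hj1
    have hjq' : ((j * q : ℕ) : ℤ) + q ≤ m := by
      have : j * q + q ≤ m := by rw [← Nat.succ_mul]; exact hj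
      exact_mod_cast this
    have hjq0 : (0 : ℤ) ≤ ((j * q : ℕ) : ℤ) := by positivity
    have hq0' : (0 : ℤ) ≤ (q : ℤ) := by positivity
    have hm0 : (0 : ℤ) ≤ (m : ℤ) := by positivity
    obtain ⟨h5, h6, h7, _⟩ := hAC.add (j * q : ℕ) q (by rw [abs_of_nonneg hjq0]; linarith)
      (by rw [abs_of_nonneg hq0']; linarith) (by rw [abs_of_nonneg (by linarith)]; linarith) hPq h4
      (Or.inl ⟨h1, h3⟩)
    have e : (((j + 1) * q : ℕ) : ℤ) = ((j * q : ℕ) : ℤ) + q := by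
      push_cast
      ring
    rw [e]
    refine ⟨h6, ?_⟩
    have h8 := hAC.bd (j * q : ℕ) (by rw [abs_of_nonneg hjq0]; linarith) h5
    have h9 : ‖A (j * q : ℕ) (v q)‖ ≤ Λ * ‖v q‖ :=
      ((A _).le_opNorm _).trans (mul_le_mul_of_nonneg_right h8 hq0)
    have h10 : v (((j * q : ℕ) : ℤ) + q) = (v (((j * q : ℕ) : ℤ) + q) - v ((j * q : ℕ) : ℤ) -
        A ((j * q : ℕ) : ℤ) (v q)) + (v ((j * q : ℕ) : ℤ) + A ((j * q : ℕ) : ℤ) (v q)) := by abel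
    rw [h10]
    refine (norm_add_le _ _).trans ?_
    have h11 := norm_add_le (v ((j * q : ℕ) : ℤ)) (A ((j * q : ℕ) : ℤ) (v q))
    have h12 : Λ * ‖v q‖ ^ 2 ≤ Λ * ‖v q‖ := by
      refine mul_le_mul_of_nonneg_left ?_ hΛ0.le
      nlinarith
    have h13 : ((j + 1 : ℕ) : ℝ) = (j : ℝ) + 1 := by push_cast; ring
    rw [h13]
    have h14 : 2 * ((j : ℝ) + 1) * Λ * ‖v q‖ = 2 * (j : ℝ) * Λ * ‖v q‖ + 2 * (Λ * ‖v q‖) := by ring
    rw [h14]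
    linarith

theorem mult_small (hAC : AC D m Λ P v A) (hΛ : 16 ≤ Λ) (hm : (m : ℝ) ≤ Λ) {q : ℕ} (hq1 : 1 ≤ q)
    (hqm : q ≤ m) (hPq : P q) (hvq : ‖v q‖ ≤ Λ⁻¹ ^ 5) (j : ℕ) (hj : j * q ≤ m) :
    P (j * q : ℕ) ∧ ‖v (j * q : ℕ)‖ ≤ 2 * Λ ^ 2 * ‖v q‖ ∧ ‖v (j * q : ℕ)‖ ≤ Λ⁻¹ ^ 2 := by
  have hΛ0 : 0 < Λ := by linarith
  have hL0 : 0 < Λ⁻¹ := inv_pos.2 hΛ0
  have hL1 : Λ⁻¹ ≤ 1 := inv_le_one_of_one_le₀ (by linarith)
  obtain ⟨h1, h2⟩ := mult hAC hΛ hm hqm hPq hvq j hj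
  have hjm : (j : ℝ) ≤ Λ := by
    refine le_trans ?_ hm
    have : j ≤ m := le_trans (Nat.le_mul_of_pos_right j hq1) hj
    exact_mod_cast this
  have h3 : 2 * (j : ℝ) * Λ * ‖v q‖ ≤ 2 * Λ ^ 2 * ‖v q‖ := by
    refine mul_le_mul_of_nonneg_right ?_ (norm_nonneg _)
    nlinarith
  refine ⟨h1, h2.trans h3, h2.trans (h3.trans ?_)⟩
  have h4 : 2 * Λ ^ 2 * ‖v q‖ ≤ 2 * Λ ^ 2 * Λ⁻¹ ^ 5 := mul_le_mul_of_nonneg_left hvq (by positivity)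
  refine h4.trans ?_
  have h5 : 2 * Λ ^ 2 * Λ⁻¹ ^ 5 = (2 * Λ⁻¹) * Λ⁻¹ ^ 2 := by
    field_simp
  rw [h5]
  refine mul_le_of_le_one_left (by positivity) ?_
  have e3 : Λ⁻¹ ≤ 1 / 16 := by
    rw [one_div]
    exact inv_anti₀ (by norm_num) hΛ
  linarith

/-- Euclid: the isolated return time divides the return time -/
theorem dvd (hAC : AC D m Λ P v A) (hΛ : 16 ≤ Λ) (hm : (m : ℝ) ≤ Λ) {t q b : ℕ} (hq1 : 1 ≤ q)
    (hqt : q ≤ t) (htm : t ≤ m) (hPt : P t) (hPq : P q) (hvt : ‖v t‖ ≤ Λ⁻¹ ^ (b + 1))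
    (hvq : ‖v q‖ ≤ Λ⁻¹ ^ (b + 5)) (hiso : ∀ j : ℕ, 0 < j → j < q → P j → Λ⁻¹ ^ b < ‖v j‖) :
    q ∣ t := by
  have hΛ0 : 0 < Λ := by linarith
  have hL0 : 0 < Λ⁻¹ := inv_pos.2 hΛ0
  have hL1 : Λ⁻¹ ≤ 1 := inv_le_one_of_one_le₀ (by linarith)
  have e3 : Λ⁻¹ ≤ 1 / 16 := by
    rw [one_div]
    exact inv_anti₀ (by norm_num) hΛ
  rw [Nat.dvd_iff_mod_eq_zero]
  by_contra hc
  have hc0 : 0 < t % q := Nat.pos_of_ne_zero hc
  have hcq : t % q < q := Nat.mod_lt _ hq1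
  have hdiv : t % q + (t / q) * q = t := by rw [mul_comm]; exact Nat.mod_add_div t q
  have hjm : (t / q) * q ≤ m := (Nat.div_mul_le_self t q).trans htm
  obtain ⟨h1, h2, h3⟩ := mult_small hAC hΛ hm hq1 (hqt.trans htm) hPq
    (hvq.trans (pow_le_pow_of_le_one hL0.le hL1 (by omega))) (t / q) hjm
  have hm0 : (0 : ℤ) ≤ (m : ℤ) := by positivity
  have i1 : |((t % q : ℕ) : ℤ)| ≤ 2 * m := by
    rw [abs_of_nonneg (by positivity)]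
    have : ((t % q : ℕ) : ℤ) ≤ m := by exact_mod_cast (hcq.le.trans (hqt.trans htm))
    linarith
  have i2 : |(((t / q) * q : ℕ) : ℤ)| ≤ 2 * m := by
    rw [abs_of_nonneg (by positivity)]
    have : (((t / q) * q : ℕ) : ℤ) ≤ m := by exact_mod_cast hjm
    linarith
  have i3 : ((t % q : ℕ) : ℤ) + (((t / q) * q : ℕ) : ℤ) = t := by exact_mod_cast hdiv
  have i4 : |((t % q : ℕ) : ℤ) + (((t / q) * q : ℕ) : ℤ)| ≤ 2 * m := by
    rw [i3, abs_of_nonneg (by positivity)]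
    have : (t : ℤ) ≤ m := by exact_mod_cast htm
    linarith
  have hvt8 : ‖v t‖ ≤ 1 / 8 := by
    have : Λ⁻¹ ^ (b + 1) ≤ Λ⁻¹ ^ 1 := pow_le_pow_of_le_one hL0.le hL1 (by omega)
    rw [pow_one] at this
    linarith
  obtain ⟨h5, h6, h7, _⟩ := hAC.add (t % q : ℕ) ((t / q) * q : ℕ) i1 i2 i4 h1 h3
    (Or.inr (by rw [i3]; exact ⟨hPt, hvt8⟩))
  rw [i3] at h7
  have h8 := hAC.bd (t % q : ℕ) i1 h5
  have h9 : ‖A (t % q : ℕ) (v ((t / q) * q : ℕ))‖ ≤ Λ * ‖v ((t / q) * q : ℕ)‖ :=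
    ((A _).le_opNorm _).trans (mul_le_mul_of_nonneg_right h8 (norm_nonneg _))
  have h10 : v ((t % q : ℕ) : ℤ) = v t - A (t % q : ℕ) (v ((t / q) * q : ℕ)) -
      (v t - v (t % q : ℕ) - A (t % q : ℕ) (v ((t / q) * q : ℕ))) := by abel
  have h11 : ‖v ((t % q : ℕ) : ℤ)‖ ≤ ‖v t‖ + Λ * ‖v ((t / q) * q : ℕ)‖ +
      Λ * ‖v ((t / q) * q : ℕ)‖ ^ 2 := by
    rw [h10]
    refine (norm_sub_le _ _).trans ?_
    have := norm_sub_le (v t) (A (t % q : ℕ) (v ((t / q) * q : ℕ)))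
    linarith
  set X := ‖v ((t / q) * q : ℕ)‖ with hX
  have hX0 : 0 ≤ X := norm_nonneg _
  have hX1 : X ≤ 1 := h3.trans (pow_le_one₀ hL0.le hL1)
  have h12 : Λ * X ^ 2 ≤ Λ * X := mul_le_mul_of_nonneg_left (by nlinarith) hΛ0.le
  have h13 : Λ * X ≤ 2 * Λ⁻¹ ^ (b + 2) := by
    calc Λ * X ≤ Λ * (2 * Λ ^ 2 * ‖v q‖) := mul_le_mul_of_nonneg_left h2 hΛ0.le
      _ ≤ Λ * (2 * Λ ^ 2 * Λ⁻¹ ^ (b + 5)) := by
        refine mul_le_mul_of_nonneg_left ?_ hΛ0.le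
        exact mul_le_mul_of_nonneg_left hvq (by positivity)
      _ = 2 * (Λ * Λ⁻¹) ^ 3 * Λ⁻¹ ^ (b + 2) := by ring
      _ = _ := by rw [mul_inv_cancel₀ hΛ0.ne', one_pow, mul_one]
  have h14 : Λ⁻¹ ^ (b + 2) ≤ Λ⁻¹ ^ b * (1 / 16) ^ 2 := by
    rw [pow_add]
    exact mul_le_mul_of_nonneg_left (pow_le_pow_left₀ hL0.le e3 2) (by positivity)
  have h15 : Λ⁻¹ ^ (b + 1) ≤ Λ⁻¹ ^ b * (1 / 16) := by
    rw [pow_succ]
    exact mul_le_mul_of_nonneg_left e3 (by positivity)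
  have h16 := hiso (t % q) hc0 hcq h5
  have h17 : 0 < Λ⁻¹ ^ b := by positivity
  nlinarith

/-- **Approximate eigenvalues at a fast return.** If the derivative at the isolated return time `q`
is robustly hyperbolic then the derivative at the return time `t` has no approximate eigenvalues
on the unit circle. -/
theorem ret_res (hAC : AC D m Λ P v A) (hΛ : 16 ≤ Λ) (hm : (m : ℝ) ≤ Λ) {t q : ℕ} (hq1 : 1 ≤ q)
    (hqt : q ≤ t) (htm : t ≤ m) (hqd : q ∣ t) (hPq : P q) {ε : ℝ} (hε : 0 < ε) (hε1 : ε ≤ 1)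
    (hvq : ‖v q‖ ≤ ε ^ 2 * Λ⁻¹ ^ 12)
    (h : ∀ B : V D →L[ℝ] V D, ‖B‖ ≤ ε → IsHypMap ((ContinuousLinearMap.id ℝ (V D) + B).comp (A q)))
    {z : ℂ} (hz : ‖z‖ = 1) (w : V D × V D) :
    ε ^ 2 * Λ⁻¹ ^ 6 * ‖w‖ ≤ ‖cT (A t) w - cm z w‖ := by
  have hΛ0 : 0 < Λ := by linarith
  have hL0 : 0 < Λ⁻¹ := inv_pos.2 hΛ0
  have hL1 : Λ⁻¹ ≤ 1 := inv_le_one_of_one_le₀ (by linarith)
  have hΛL : Λ * Λ⁻¹ = 1 := mul_inv_cancel₀ hΛ0.ne'
  have e16 : Λ⁻¹ ≤ 1 / 16 := by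
    rw [one_div]
    exact inv_anti₀ (by norm_num) hΛ
  have hε2 : ε ^ 2 ≤ 1 := pow_le_one₀ hε.le hε1
  have hvq12 : ‖v q‖ ≤ Λ⁻¹ ^ 12 := hvq.trans (mul_le_of_le_one_left (by positivity) hε2)
  have hvq5 : ‖v q‖ ≤ Λ⁻¹ ^ 5 := hvq12.trans (pow_le_pow_of_le_one hL0.le hL1 (by norm_num))
  have hvq2 : ‖v q‖ ≤ Λ⁻¹ ^ 2 := hvq12.trans (pow_le_pow_of_le_one hL0.le hL1 (by norm_num))
  have hvq8 : ‖v q‖ ≤ 1 / 8 := by
    have : Λ⁻¹ ^ 12 ≤ Λ⁻¹ ^ 1 := pow_le_pow_of_le_one hL0.le hL1 (by norm_num)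
    rw [pow_one] at this
    linarith
  have hqm : q ≤ m := hqt.trans htm
  have hqz : |(q : ℤ)| ≤ 2 * m := by
    rw [abs_of_nonneg (by positivity)]
    have : (q : ℤ) ≤ m := by exact_mod_cast hqm
    have : (0 : ℤ) ≤ m := by positivity
    linarith
  -- bounds for `A q`
  have hAq : ‖A q‖ ≤ Λ := hAC.bd q hqz hPq
  have hDu : ∀ x, ‖A q x‖ ≤ (2 * Λ) * ‖x‖ := fun x =>
    ((A q).le_opNorm x).trans (mul_le_mul_of_nonneg_right (by linarith) (norm_nonneg _))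
  have hDl : ∀ x, ‖x‖ ≤ (2 * Λ) * ‖A q x‖ := by
    obtain ⟨z1, z2, z3⟩ := hAC.zero
    obtain ⟨h5, h6, _, h7⟩ := hAC.add (-(q : ℤ)) q (by rw [abs_neg]; exact hqz) hqz
      (by rw [neg_add_cancel, abs_zero]; positivity) hPq hvq2
      (Or.inr (by rw [neg_add_cancel, z2, norm_zero]; exact ⟨z1, by norm_num⟩))
    rw [neg_add_cancel, z3] at h7
    have h8 := hAC.bd (-(q : ℤ)) (by rw [abs_neg]; exact hqz) h5
    intro x
    have h9 : x = (ContinuousLinearMap.id ℝ (V D) - (A (-(q : ℤ))).comp (A q)) x +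
        A (-(q : ℤ)) (A q x) := by
      simp
    have h10 : ‖(ContinuousLinearMap.id ℝ (V D) - (A (-(q : ℤ))).comp (A q)) x‖ ≤ 1 / 2 * ‖x‖ := by
      refine (ContinuousLinearMap.le_opNorm _ _).trans ?_
      refine mul_le_mul_of_nonneg_right (h7.trans ?_) (norm_nonneg _)
      have e1 : Λ ^ 2 * ‖v q‖ ≤ Λ ^ 2 * Λ⁻¹ ^ 5 := mul_le_mul_of_nonneg_left hvq5 (by positivity)
      have e2 : Λ ^ 2 * Λ⁻¹ ^ 5 = (Λ * Λ⁻¹) ^ 2 * Λ⁻¹ ^ 3 := by ring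
      rw [e2, hΛL, one_pow, one_mul] at e1
      have e3 : Λ⁻¹ ^ 3 ≤ Λ⁻¹ ^ 1 := pow_le_pow_of_le_one hL0.le hL1 (by norm_num)
      rw [pow_one] at e3
      linarith
    have h11 : ‖A (-(q : ℤ)) (A q x)‖ ≤ Λ * ‖A q x‖ :=
      ((A _).le_opNorm _).trans (mul_le_mul_of_nonneg_right h8 (norm_nonneg _))
    have h12 : ‖x‖ ≤ 1 / 2 * ‖x‖ + Λ * ‖A q x‖ := by
      calc ‖x‖ = ‖(ContinuousLinearMap.id ℝ (V D) - (A (-(q : ℤ))).comp (A q)) x +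
            A (-(q : ℤ)) (A q x)‖ := by rw [← h9]
        _ ≤ _ := (norm_add_le _ _).trans (add_le_add h10 h11)
    linarith
  have hres : ∀ (z : ℂ), ‖z‖ = 1 → ∀ w : V D × V D,
      ε ^ 2 / (36 * (2 * Λ) ^ 3) * ‖w‖ ≤ ‖cT (A q) w - cm z w‖ := fun z hz w =>
    resolvent hε hε1 (by linarith) hDl hDu h hz w
  set δ : ℝ := ε ^ 2 / (36 * (2 * Λ) ^ 3) with hδ
  have hδ0 : 0 < δ := by rw [hδ]; positivity
  have hδ' : δ = ε ^ 2 * Λ⁻¹ ^ 3 / 288 := by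
    rw [hδ]
    field_simp
    ring
  obtain ⟨l, hl⟩ := hqd
  have hl1 : 1 ≤ l := by
    rcases Nat.eq_zero_or_pos l with h0 | h0
    · rw [h0, mul_zero] at hl
      omega
    · exact h0
  have hlm : l ≤ m := by
    have : l ≤ q * l := Nat.le_mul_of_pos_left l hq1
    omega
  have hjm : ∀ j, j ≤ l → j * q ≤ m := by
    intro j hj
    calc j * q ≤ l * q := Nat.mul_le_mul_right q hj
      _ = t := by rw [mul_comm]; exact hl.symm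
      _ ≤ m := htm
  set η : ℝ := 2 * Λ ^ 4 * ‖v q‖ with hη
  have hfin := fourier (D := A q) (B := fun j : ℕ => A ((j * q : ℕ) : ℤ)) (l := l) hl1 (δ := δ)
    (η := η) hδ0 (by positivity) (by
      rw [zero_mul, Nat.cast_zero]
      exact hAC.zero.2.2) (by
      intro j hj
      have h1 := hjm j hj.le
      have h2 := hjm (j + 1) hj
      obtain ⟨g1, g2, g3⟩ := mult_small hAC hΛ hm hq1 hqm hPq hvq5 j h1
      have e : (((j + 1) * q : ℕ) : ℤ) = (q : ℤ) + ((j * q : ℕ) : ℤ) := by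
        push_cast
        ring
      have hm0 : (0 : ℤ) ≤ (m : ℤ) := by positivity
      obtain ⟨_, _, _, h7⟩ := hAC.add q (j * q : ℕ) hqz
        (by
          rw [abs_of_nonneg (by positivity)]
          have : ((j * q : ℕ) : ℤ) ≤ m := by exact_mod_cast h1
          linarith)
        (by
          rw [← e, abs_of_nonneg (by positivity)]
          have : (((j + 1) * q : ℕ) : ℤ) ≤ m := by exact_mod_cast h2
          linarith) g1 g3 (Or.inl ⟨hPq, hvq8⟩)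
      rw [e, norm_sub_rev]
      refine h7.trans ?_
      calc Λ ^ 2 * ‖v (j * q : ℕ)‖ ≤ Λ ^ 2 * (2 * Λ ^ 2 * ‖v q‖) :=
            mul_le_mul_of_nonneg_left g2 (by positivity)
        _ = η := by rw [hη]; ring)
    (by
      have e1 : (l : ℝ) ≤ Λ := le_trans (by exact_mod_cast hlm) hm
      calc (l : ℝ) * η ≤ Λ * η := mul_le_mul_of_nonneg_right e1 (by positivity)
        _ = 2 * Λ ^ 5 * ‖v q‖ := by rw [hη]; ring
        _ ≤ 2 * Λ ^ 5 * (ε ^ 2 * Λ⁻¹ ^ 12) := mul_le_mul_of_nonneg_left hvq (by positivity)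
        _ = (Λ * Λ⁻¹) ^ 5 * (ε ^ 2 * Λ⁻¹ ^ 3 * (2 * Λ⁻¹ ^ 4)) := by ring
        _ = ε ^ 2 * Λ⁻¹ ^ 3 * (2 * Λ⁻¹ ^ 4) := by rw [hΛL, one_pow, one_mul]
        _ ≤ ε ^ 2 * Λ⁻¹ ^ 3 * (1 / 1152) := by
          refine mul_le_mul_of_nonneg_left ?_ (by positivity)
          have : Λ⁻¹ ^ 4 ≤ 1 / 65536 := (pow_le_pow_left₀ hL0.le e16 4).trans (by norm_num)
          linarith
        _ = δ / 4 := by rw [hδ']; ring) hres hz w
  have e : ((l * q : ℕ) : ℤ) = (t : ℤ) := by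
    rw [hl, mul_comm]
  rw [e] at hfin
  refine le_trans (mul_le_mul_of_nonneg_right ?_ (norm_nonneg _)) hfin
  rw [hδ']
  have e1 : Λ⁻¹ ^ 6 = Λ⁻¹ ^ 3 * Λ⁻¹ ^ 3 := by ring
  have e2 : Λ⁻¹ ^ 3 ≤ 1 / 1152 :=
    (pow_le_pow_left₀ hL0.le e16 3).trans (by norm_num)
  calc ε ^ 2 * Λ⁻¹ ^ 6 = ε ^ 2 * Λ⁻¹ ^ 3 * Λ⁻¹ ^ 3 := by rw [e1]; ring
    _ ≤ ε ^ 2 * Λ⁻¹ ^ 3 * (1 / 1152) := mul_le_mul_of_nonneg_left e2 (by positivity)
    _ = _ := by ring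

end

end Pool.Agent.H74.EH
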