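import Pool.Agent.H74.G.R_pool_sql_team_seeded_c8625f6e.K4H47.RH.Def

/-!
# Pairs of vectors as complex vectors
-/

set_option autoImplicit false

open Filter Set Metric

namespace Pool.Agent.H74.EH

open Pool.Agent.H718R2.G Pool.Agent.K4H47.RH

section

variable {E : Type*} [NormedAddCommGroup E] [NormedSpace ℝ E]

/-- multiplication of the complex vector `a + i b` by the complex number `z` -/
def cm (z : ℂ) (w : E × E) : E × E := (z.re • w.1 - z.im • w.2, z.im • w.1 + z.re • w.2)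

/-- a linear map acting on complex vectors -/
def cT (T : E →L[ℝ] E) (w : E × E) : E × E := (T w.1, T w.2)

theorem cm_add (z : ℂ) (w w' : E × E) : cm z (w + w') = cm z w + cm z w' := by
  ext <;> simp only [cm, Prod.fst_add, Prod.snd_add] <;> module

theorem cm_sub (z : ℂ) (w w' : E × E) : cm z (w - w') = cm z w - cm z w' := by
  ext <;> simp only [cm, Prod.fst_sub, Prod.snd_sub] <;> module

theorem cm_add' (z z' : ℂ) (w : E × E) : cm (z + z') w = cm z w + cm z' w := by
  ext <;> simp only [cm, Complex.add_re, Complex.add_im, Prod.fst_add, Prod.snd_add] <;> module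

theorem cm_sub' (z z' : ℂ) (w : E × E) : cm (z - z') w = cm z w - cm z' w := by
  ext <;> simp only [cm, Complex.sub_re, Complex.sub_im, Prod.fst_sub, Prod.snd_sub] <;> module

theorem cm_mul (z z' : ℂ) (w : E × E) : cm (z * z') w = cm z (cm z' w) := by
  ext <;> simp only [cm, Complex.mul_re, Complex.mul_im] <;> module

theorem cm_one (w : E × E) : cm 1 w = w := by
  ext <;> simp [cm]

theorem cm_zero (z : ℂ) : cm z (0 : E × E) = 0 := by
  ext <;> simp [cm]

theorem cm_zero' (w : E × E) : cm 0 w = 0 := by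
  ext <;> simp [cm]

theorem cm_smul (z : ℂ) (c : ℝ) (w : E × E) : cm z (c • w) = c • cm z w := by
  ext <;> simp only [cm, Prod.smul_fst, Prod.smul_snd] <;> module

theorem cm_real (c : ℝ) (w : E × E) : cm (c : ℂ) w = c • w := by
  ext <;> simp [cm]

theorem cm_sum {ι : Type*} (s : Finset ι) (z : ℂ) (f : ι → E × E) :
    cm z (∑ i ∈ s, f i) = ∑ i ∈ s, cm z (f i) := by
  classical
  induction s using Finset.induction_on with
  | empty => rw [Finset.sum_empty, Finset.sum_empty, cm_zero]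
  | insert a s ha ih => rw [Finset.sum_insert ha, Finset.sum_insert ha, cm_add, ih]

theorem cm_sum' {ι : Type*} (s : Finset ι) (z : ι → ℂ) (w : E × E) :
    cm (∑ i ∈ s, z i) w = ∑ i ∈ s, cm (z i) w := by
  classical
  induction s using Finset.induction_on with
  | empty => rw [Finset.sum_empty, Finset.sum_empty, cm_zero']
  | insert a s ha ih => rw [Finset.sum_insert ha, Finset.sum_insert ha, cm_add', ih]

theorem norm_cm_le (z : ℂ) (w : E × E) : ‖cm z w‖ ≤ 2 * ‖z‖ * ‖w‖ := by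
  have h1 := Complex.abs_re_le_norm z
  have h2 := Complex.abs_im_le_norm z
  have h3 : ‖w.1‖ ≤ ‖w‖ := norm_fst_le w
  have h4 : ‖w.2‖ ≤ ‖w‖ := norm_snd_le w
  have e1 : |z.re| * ‖w.1‖ ≤ ‖z‖ * ‖w‖ := mul_le_mul h1 h3 (norm_nonneg _) (norm_nonneg _)
  have e2 : |z.im| * ‖w.2‖ ≤ ‖z‖ * ‖w‖ := mul_le_mul h2 h4 (norm_nonneg _) (norm_nonneg _)
  have e3 : |z.im| * ‖w.1‖ ≤ ‖z‖ * ‖w‖ := mul_le_mul h2 h3 (norm_nonneg _) (norm_nonneg _)
  have e4 : |z.re| * ‖w.2‖ ≤ ‖z‖ * ‖w‖ := mul_le_mul h1 h4 (norm_nonneg _) (norm_nonneg _)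
  rw [Prod.norm_def]
  refine max_le ?_ ?_
  · show ‖z.re • w.1 - z.im • w.2‖ ≤ _
    refine (norm_sub_le _ _).trans ?_
    rw [norm_smul, norm_smul, Real.norm_eq_abs, Real.norm_eq_abs]
    linarith
  · show ‖z.im • w.1 + z.re • w.2‖ ≤ _
    refine (norm_add_le _ _).trans ?_
    rw [norm_smul, norm_smul, Real.norm_eq_abs, Real.norm_eq_abs]
    linarith

theorem cT_add (T : E →L[ℝ] E) (w w' : E × E) : cT T (w + w') = cT T w + cT T w' := by
  ext <;> simp [cT]

theorem cT_smul (T : E →L[ℝ] E) (c : ℝ) (w : E × E) : cT T (c • w) = c • cT T w := by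
  ext <;> simp [cT]

theorem cT_zero (T : E →L[ℝ] E) : cT T (0 : E × E) = 0 := by
  ext <;> simp [cT]

theorem cT_cm (T : E →L[ℝ] E) (z : ℂ) (w : E × E) : cT T (cm z w) = cm z (cT T w) := by
  ext <;> simp only [cT, cm, map_sub, map_add, map_smul]

theorem cT_sum {ι : Type*} (s : Finset ι) (T : E →L[ℝ] E) (f : ι → E × E) :
    cT T (∑ i ∈ s, f i) = ∑ i ∈ s, cT T (f i) := by
  classical
  induction s using Finset.induction_on with
  | empty => rw [Finset.sum_empty, Finset.sum_empty, cT_zero]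
  | insert a s ha ih => rw [Finset.sum_insert ha, Finset.sum_insert ha, cT_add, ih]

theorem norm_cT_le (T : E →L[ℝ] E) (w : E × E) : ‖cT T w‖ ≤ ‖T‖ * ‖w‖ := by
  rw [Prod.norm_def]
  refine max_le ?_ ?_
  · exact (T.le_opNorm _).trans (mul_le_mul_of_nonneg_left (norm_fst_le w) (norm_nonneg _))
  · exact (T.le_opNorm _).trans (mul_le_mul_of_nonneg_left (norm_snd_le w) (norm_nonneg _))

/-- the sum of the `j`-th powers of the `l`-th roots of unity -/
theorem sum_roots {l j : ℕ} (hj : 0 < j) (hjl : j < l) :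
    ∑ k ∈ Finset.range l, Complex.exp (-(2 * Real.pi * Complex.I * k / l)) ^ j = 0 := by
  have hl : 0 < l := by omega
  have hl0 : (l : ℂ) ≠ 0 := by exact_mod_cast hl.ne'
  set ξ : ℂ := Complex.exp (-(2 * Real.pi * Complex.I * j / l)) with hξ
  have h1 : ∀ k ∈ Finset.range l,
      Complex.exp (-(2 * Real.pi * Complex.I * k / l)) ^ j = ξ ^ k := by
    intro k _
    rw [hξ, ← Complex.exp_nat_mul, ← Complex.exp_nat_mul]
    congr 1
    ring
  rw [Finset.sum_congr rfl h1]
  have h2 : ξ ^ l = 1 := by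
    rw [hξ, ← Complex.exp_nat_mul, Complex.exp_eq_one_iff]
    refine ⟨-j, ?_⟩
    field_simp
    push_cast
    ring
  have h3 : ξ ≠ 1 := by
    intro h
    rw [hξ, Complex.exp_eq_one_iff] at h
    obtain ⟨n, hn⟩ := h
    have hpi : (2 * Real.pi * Complex.I : ℂ) ≠ 0 := Complex.two_pi_I_ne_zero
    have h4 : -((j : ℂ) / l) = n := by
      have h5 : (2 * Real.pi * Complex.I : ℂ) * (-((j : ℂ) / l)) = (2 * Real.pi * Complex.I) * n := by
        calc _ = -(2 * Real.pi * Complex.I * j / l) := by ring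
          _ = _ := by rw [hn]; ring
      exact mul_left_cancel₀ hpi h5
    have h6 : -(j : ℂ) = n * l := by
      field_simp at h4
      linear_combination h4
    have h7 : -(j : ℤ) = n * l := by exact_mod_cast h6
    have h8 : (l : ℤ) ∣ j := ⟨-n, by linarith [h7, mul_comm (l : ℤ) n]⟩
    have h9 : l ∣ j := by exact_mod_cast h8
    exact absurd (Nat.le_of_dvd hj h9) (by omega)
  have h4 := geom_sum_mul ξ l
  rw [h2, sub_self] at h4
  exact (mul_eq_zero.1 h4).resolve_right (sub_ne_zero.2 h3)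

/-- **Discrete Fourier analysis of a nearly periodic cocycle.** If `D` has no approximate
eigenvalues on the unit circle, and `B l` is approximately the `l`-th power of `D`, then `B l`
has no approximate eigenvalues on the unit circle. -/
theorem fourier {D : E →L[ℝ] E} {B : ℕ → E →L[ℝ] E} {l : ℕ} (hl : 1 ≤ l) {δ η : ℝ} (hδ : 0 < δ)
    (_hη : 0 ≤ η) (hB0 : B 0 = ContinuousLinearMap.id ℝ E)
    (hB : ∀ j < l, ‖D.comp (B j) - B (j + 1)‖ ≤ η) (hηδ : l * η ≤ δ / 4)
    (hres : ∀ (z : ℂ), ‖z‖ = 1 → ∀ w : E × E, δ * ‖w‖ ≤ ‖cT D w - cm z w‖)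
    {z : ℂ} (hz : ‖z‖ = 1) (w : E × E) : δ / 4 * ‖w‖ ≤ ‖cT (B l) w - cm z w‖ := by
  have hl0 : 0 < (l : ℝ) := by exact_mod_cast hl
  have hlC : (l : ℂ) ≠ 0 := by exact_mod_cast (by omega : l ≠ 0)
  -- the `l`-th roots of `z`
  obtain ⟨θ, hθ⟩ : ∃ θ : ℝ, z = Complex.exp (θ * Complex.I) := by
    refine ⟨Complex.arg z, ?_⟩
    have := Complex.norm_mul_exp_arg_mul_I z
    rw [hz] at this
    simpa using this.symm
  set ζ : ℕ → ℂ := fun k => Complex.exp ((θ * Complex.I + 2 * Real.pi * Complex.I * k) / l) with hζ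
  set ω : ℕ → ℂ := fun k => Complex.exp (-((θ * Complex.I + 2 * Real.pi * Complex.I * k) / l))
    with hω
  have hζω : ∀ k, ζ k * ω k = 1 := by
    intro k
    rw [hζ, hω]
    simp only
    rw [← Complex.exp_add, add_neg_cancel, Complex.exp_zero]
  have hζ1 : ∀ k, ‖ζ k‖ = 1 := by
    intro k
    have e : (θ * Complex.I + 2 * Real.pi * Complex.I * k) / l =
        (((θ + 2 * Real.pi * k) / l : ℝ) : ℂ) * Complex.I := by
      push_cast
      ring
    rw [hζ]
    simp only
    rw [e, Complex.norm_exp_ofReal_mul_I]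
  have hω1 : ∀ k, ‖ω k‖ = 1 := by
    intro k
    have h1 := congrArg norm (hζω k)
    rw [norm_mul, hζ1, one_mul, norm_one] at h1
    exact h1
  have hωl : ∀ k, ω k ^ l * z = 1 := by
    intro k
    rw [hω, hθ]
    simp only
    rw [← Complex.exp_nat_mul, ← Complex.exp_add, Complex.exp_eq_one_iff]
    refine ⟨-k, ?_⟩
    field_simp
    push_cast
    ring
  -- the components
  set W : ℕ → E × E := fun k => (l : ℝ)⁻¹ • ∑ j ∈ Finset.range l, cm (ω k ^ j) (cT (B j) w) with hW
  have hsum : ∑ k ∈ Finset.range l, W k = w := by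
    have h1 : ∑ k ∈ Finset.range l, W k = (l : ℝ)⁻¹ • ∑ j ∈ Finset.range l,
        cm (∑ k ∈ Finset.range l, ω k ^ j) (cT (B j) w) := by
      rw [hW]
      simp only
      rw [← Finset.smul_sum, Finset.sum_comm]
      congr 1
      refine Finset.sum_congr rfl fun j _ => ?_
      rw [cm_sum']
    have h2 : ∀ j ∈ Finset.range l, j ≠ 0 → cm (∑ k ∈ Finset.range l, ω k ^ j) (cT (B j) w) = 0 := by
      intro j hj hj0
      have h3 : ∑ k ∈ Finset.range l, ω k ^ j = 0 := by
        have h4 : ∀ k ∈ Finset.range l, ω k ^ j = Complex.exp (-(θ * Complex.I / l)) ^ j *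
            Complex.exp (-(2 * Real.pi * Complex.I * k / l)) ^ j := by
          intro k _
          rw [hω, ← mul_pow, ← Complex.exp_add]
          congr 2
          ring
        rw [Finset.sum_congr rfl h4, ← Finset.mul_sum,
          sum_roots (Nat.pos_of_ne_zero hj0) (Finset.mem_range.1 hj), mul_zero]
      rw [h3, cm_zero']
    rw [h1, Finset.sum_eq_single_of_mem 0 (Finset.mem_range.2 (by omega)) h2]
    have h5 : cT (B 0) w = w := by
      rw [hB0]
      ext <;> simp [cT]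
    have h6 : ∑ k ∈ Finset.range l, ω k ^ 0 = ((l : ℝ) : ℂ) := by
      simp
    rw [h5, h6, cm_real, smul_smul, inv_mul_cancel₀ hl0.ne', one_smul]
  -- the residuals
  have hres2 : ∀ k ∈ Finset.range l, δ * ‖W k‖ ≤
      (l : ℝ)⁻¹ * (2 * ‖cT (B l) w - cm z w‖) + 2 * (η * ‖w‖) := by
    intro k _
    refine (hres (ζ k) (hζ1 k) (W k)).trans ?_
    set f : ℕ → E × E := fun j => cm (ζ k * ω k ^ j) (cT (B j) w) with hf
    have e1 : cT D (W k) - cm (ζ k) (W k) = (l : ℝ)⁻¹ • ((f l - f 0) +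
        ∑ j ∈ Finset.range l, cm (ω k ^ j) (cT (D.comp (B j) - B (j + 1)) w)) := by
      rw [← Finset.sum_range_sub, ← Finset.sum_add_distrib, hW]
      simp only
      rw [cT_smul, cm_smul, ← smul_sub, cT_sum, cm_sum, ← Finset.sum_sub_distrib]
      congr 1
      refine Finset.sum_congr rfl fun j _ => ?_
      have e2 : f (j + 1) = cm (ω k ^ j) (cT (B (j + 1)) w) := by
        rw [hf]
        simp only
        congr 1
        rw [pow_succ', ← mul_assoc, hζω, one_mul]
      rw [e2, cT_cm, ← cm_mul]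
      have e3 : cT (D.comp (B j) - B (j + 1)) w = cT D (cT (B j) w) - cT (B (j + 1)) w := by
        ext <;> simp [cT]
      rw [e3, cm_sub]
      show _ = cm (ω k ^ j) (cT (B (j + 1)) w) - cm (ζ k * ω k ^ j) (cT (B j) w) + _
      abel
    have e4 : f l - f 0 = cm (ζ k * ω k ^ l) (cT (B l) w - cm z w) := by
      rw [cm_sub, ← cm_mul, mul_assoc, hωl, mul_one]
      rw [hf]
      simp only
      rw [pow_zero, mul_one, hB0]
      congr 1
    have e5 : ‖f l - f 0‖ ≤ 2 * ‖cT (B l) w - cm z w‖ := by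
      rw [e4]
      refine (norm_cm_le _ _).trans ?_
      rw [norm_mul, norm_pow, hζ1, hω1, one_pow, mul_one, mul_one]
    have e6 : ‖∑ j ∈ Finset.range l, cm (ω k ^ j) (cT (D.comp (B j) - B (j + 1)) w)‖ ≤
        l * (2 * (η * ‖w‖)) := by
      refine (norm_sum_le _ _).trans ?_
      have e7 : ∀ j ∈ Finset.range l, ‖cm (ω k ^ j) (cT (D.comp (B j) - B (j + 1)) w)‖ ≤
          2 * (η * ‖w‖) := by
        intro j hj
        refine (norm_cm_le _ _).trans ?_
        rw [norm_pow, hω1, one_pow, mul_one]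
        refine mul_le_mul_of_nonneg_left ((norm_cT_le _ _).trans ?_) (by norm_num)
        exact mul_le_mul_of_nonneg_right (hB j (Finset.mem_range.1 hj)) (norm_nonneg _)
      refine (Finset.sum_le_sum e7).trans ?_
      rw [Finset.sum_const, Finset.card_range, nsmul_eq_mul]
    rw [e1, norm_smul, Real.norm_eq_abs, abs_of_pos (inv_pos.2 hl0)]
    have e8 := norm_add_le (f l - f 0)
      (∑ j ∈ Finset.range l, cm (ω k ^ j) (cT (D.comp (B j) - B (j + 1)) w))
    calc _ ≤ (l : ℝ)⁻¹ * (2 * ‖cT (B l) w - cm z w‖ + l * (2 * (η * ‖w‖))) := by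
          refine mul_le_mul_of_nonneg_left ?_ (inv_pos.2 hl0).le
          linarith
      _ = _ := by
          rw [mul_add, ← mul_assoc (l : ℝ)⁻¹ (l : ℝ), inv_mul_cancel₀ hl0.ne', one_mul]
  have h7 : δ * ‖w‖ ≤ 2 * ‖cT (B l) w - cm z w‖ + l * (2 * (η * ‖w‖)) := by
    calc δ * ‖w‖ = δ * ‖∑ k ∈ Finset.range l, W k‖ := by rw [hsum]
      _ ≤ δ * ∑ k ∈ Finset.range l, ‖W k‖ := mul_le_mul_of_nonneg_left (norm_sum_le _ _) hδ.le
      _ = ∑ k ∈ Finset.range l, δ * ‖W k‖ := Finset.mul_sum _ _ _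
      _ ≤ ∑ k ∈ Finset.range l, ((l : ℝ)⁻¹ * (2 * ‖cT (B l) w - cm z w‖) + 2 * (η * ‖w‖)) :=
        Finset.sum_le_sum hres2
      _ = _ := by
        rw [Finset.sum_const, Finset.card_range, nsmul_eq_mul, mul_add, ← mul_assoc,
          mul_inv_cancel₀ hl0.ne', one_mul]
  have h8 : l * (2 * (η * ‖w‖)) ≤ δ / 2 * ‖w‖ := by
    calc l * (2 * (η * ‖w‖)) = (l * η) * (2 * ‖w‖) := by ring
      _ ≤ (δ / 4) * (2 * ‖w‖) := mul_le_mul_of_nonneg_right hηδ (by positivity)
      _ = _ := by ring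
  linarith

end

end Pool.Agent.H74.EH
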