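import Pool.Agent.H74.EH.Loc

/-!
# Points of period `m` of `Ω`-stable diffeomorphisms: quantitative hyperbolicity
-/

set_option autoImplicit false
set_option linter.unusedSectionVars false

open scoped Manifold ContDiff Topology
open Filter Set Metric

universe u

namespace Pool.Agent.H74.EH

open Pool.Agent.H718R2.G Pool.Agent.W564.SC Pool.Agent.W509.SC Pool.Agent.Y368.CL
open Pool.Agent.K4H47.IR Pool.Agent.TH80.OMS
open Pool.Agent.K4H47.RH (DN DE IsHypMap IsImm Tc Sc ST TS chart_md)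

/-- The points fixed by `F^m` are hyperbolic, with the constant `ε`:
* `closing`: if `dist (F^m z) z < ε` then there is a point `x` with `F^m x = x` and
  `dist x z ≤ dist (F^m z) z / ε`;
* `separated`: different points fixed by `F^m` have distance at least `ε`;
* `multipliers`: all complex eigenvalues of `D(F^m)(x)`, `F^m x = x`, satisfy `|log |lam|| ≥ ε`;
* `robust`: `(1 + B) ∘ D(F^m)(x)`, `F^m x = x`, has no complex eigenvalue of modulus one, for all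
  linear maps `B` of the tangent space `T_x N` of norm at most `ε`, for the norm `|v| = |De(x) v|`. -/
structure QuantPer (n : ℕ) {N : Type u} [MetricSpace N] [ChartedSpace (V n) N] {q : ℕ}
    (e : N → V q) (F : N → N) (m : ℕ) (ε : ℝ) : Prop where
  closing : ∀ z, dist (F^[m] z) z < ε → ∃ x, F^[m] x = x ∧ ε * dist x z ≤ dist (F^[m] z) z
  separated : ∀ x y, F^[m] x = x → F^[m] y = y → x ≠ y → ε ≤ dist x y
  multipliers : ∀ x, F^[m] x = x → ∀ lam : ℂ,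
    ((LinearMap.charpoly (DN n F^[m] x : V n →ₗ[ℝ] V n)).map (algebraMap ℝ ℂ)).IsRoot lam →
      ε ≤ |Real.log ‖lam‖|
  robust : ∀ x, F^[m] x = x → ∀ B : V n →L[ℝ] V n,
    (∀ v, ‖DE n e x (B v)‖ ≤ ε * ‖DE n e x v‖) →
      IsHypMap ((ContinuousLinearMap.id ℝ (V n) + B).comp (DN n F^[m] x))

theorem QuantPer.mono {n : ℕ} {N : Type u} [MetricSpace N] [ChartedSpace (V n) N] {q : ℕ}
    {e : N → V q} {F : N → N} {m : ℕ} {ε ε' : ℝ} (h : QuantPer n e F m ε) (hle : ε' ≤ ε) :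
    QuantPer n e F m ε' where
  closing := fun z hz => by
    obtain ⟨x, hx, hd⟩ := h.closing z (hz.trans_le hle)
    exact ⟨x, hx, (mul_le_mul_of_nonneg_right hle dist_nonneg).trans hd⟩
  separated := fun x y hx hy hxy => hle.trans (h.separated x y hx hy hxy)
  multipliers := fun x hx lam hl => hle.trans (h.multipliers x hx lam hl)
  robust := fun x hx B hB => h.robust x hx B fun v =>
    (hB v).trans (mul_le_mul_of_nonneg_right hle (norm_nonneg _))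

/-- the total exponent -/
def tE (k n : ℕ) : ℕ := aE k n + 2 * sE k n + 1

section

variable {n : ℕ} {N : Type u} [MetricSpace N] [CompactSpace N] [ChartedSpace (V n) N]
  [IsManifold (𝓡 n) ∞ N] {r : ℕ∞}

/-- conjugate linear maps have the same characteristic polynomial -/
theorem charpoly_conj {T S A : V n →L[ℝ] V n} (hTS : T.comp S = ContinuousLinearMap.id ℝ (V n))
    (hST : S.comp T = ContinuousLinearMap.id ℝ (V n)) :
    LinearMap.charpoly ((T.comp (A.comp S) : V n →L[ℝ] V n) : V n →ₗ[ℝ] V n) =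
      LinearMap.charpoly (A : V n →ₗ[ℝ] V n) := by
  set E : V n ≃ₗ[ℝ] V n := LinearEquiv.ofLinearMap (T : V n →ₗ[ℝ] V n) (S : V n →ₗ[ℝ] V n)
    (by
      ext1 x
      exact congrArg (fun A : V n →L[ℝ] V n => A x) hTS)
    (by
      ext1 x
      exact congrArg (fun A : V n →L[ℝ] V n => A x) hST) with hE
  have h8 : ((T.comp (A.comp S) : V n →L[ℝ] V n) : V n →ₗ[ℝ] V n) =
      E.conj (A : V n →ₗ[ℝ] V n) := by
    ext1 x
    rfl
  rw [h8, LinearEquiv.charpoly_conj]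

/-- the hypothesis of `loc_res` -/
def HIR (F : DiffM n N r) (χ : OpenPartialHomeomorph N (V n)) (k : ℕ) (c : ℝ) : Prop :=
  ∀ (x : N) (j : ℕ) (ρ : ℝ), 0 < ρ → ρ ≤ 1 → IsoRet F χ x j ρ (c * ρ ^ k) →
    RobHyp (fderiv ℝ (fun v => χ (F^[j] (χ.symm v))) (χ x)) (c * ρ ^ (k - 1))

theorem HIR.mono {F : DiffM n N r} {χ : OpenPartialHomeomorph N (V n)} {k k' : ℕ} {c c' : ℝ}
    (h : HIR F χ k c) (hk : k ≤ k') (hc0 : 0 < c') (hc : c' ≤ c) : HIR F χ k' c' := by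
  intro x j ρ hρ0 hρ1 hx
  have h1 := h x j ρ hρ0 hρ1 ⟨hx.mem, hx.pos, hx.iso, hx.ret.1, hx.ret.2.trans
    (mul_le_mul hc (pow_le_pow_of_le_one hρ0.le hρ1 hk) (by positivity) (hc0.le.trans hc))⟩
  intro B hB
  exact h1 B (hB.trans (mul_le_mul hc (pow_le_pow_of_le_one hρ0.le hρ1 (by omega)) (by positivity)
    (hc0.le.trans hc)))

theorem exists_HIR (hr : 1 ≤ r) (F : DiffM n N r) (hF : OmegaStable n N r F) {ι : Type*}
    (χ : ι → OpenPartialHomeomorph N (V n)) (z : ι → N) (hχ : ∀ b, GoodChart n N (χ b) (z b))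
    (T : Finset ι) : ∃ k : ℕ, 1 ≤ k ∧ (k : ℕ∞) ≤ r ∧ ∃ c : ℝ, 0 < c ∧ c ≤ 1 ∧
      ∀ b ∈ T, HIR F (χ b) k c := by
  classical
  induction T using Finset.induction_on with
  | empty => exact ⟨1, le_rfl, by exact_mod_cast hr, 1, one_pos, le_rfl, by simp⟩
  | insert a T ha ih =>
    obtain ⟨k, hk1, hkr, c, hc0, hc1, h⟩ := ih
    obtain ⟨U, hU, hFU, k', hk1', hkr', c', hc0', hc1', h'⟩ :=
      Pool.Agent.K4H47.IR.main hr F hF (χ a) (z a) (hχ a)
    refine ⟨max k k', le_max_of_le_left hk1, ?_, min c c', lt_min hc0 hc0',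
      (min_le_left _ _).trans hc1, ?_⟩
    · rcases max_choice k k' with hm | hm <;> rw [hm] <;> assumption
    · intro b hb
      rcases Finset.mem_insert.1 hb with rfl | hb
      · have h2 : HIR F (χ b) k' c' := fun x j ρ hρ0 hρ1 hx => (h' F hFU x j ρ hρ0 hρ1 hx).2
        exact h2.mono (le_max_right _ _) (lt_min hc0 hc0') (min_le_right _ _)
      · exact (h b hb).mono (le_max_left _ _) (lt_min hc0 hc0') (min_le_left _ _)

/-- the estimate in one chart -/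
theorem chart_quant (hr : 1 ≤ r) {F : DiffM n N r} {χ : OpenPartialHomeomorph N (V n)} {z₀ : N}
    (hχ : GoodChart n N χ z₀) {k : ℕ} (hk : 1 ≤ k) {c : ℝ} (hc0 : 0 < c) (hc1 : c ≤ 1)
    (hIR : HIR F χ k c) {L δ : ℝ} (hL1 : 1 ≤ L)
    (hL : ∀ y ∈ χ.source, ∀ y' ∈ χ.source, ‖χ y‖ ≤ 1 / 2 → ‖χ y'‖ ≤ 1 / 2 →
      dist y y' ≤ L * ‖χ y - χ y'‖ ∧ ‖χ y - χ y'‖ ≤ L * dist y y')
    (hδ : ∀ y ∈ χ.source, ‖χ y‖ ≤ 1 / 4 → ∀ y', dist y y' < δ →
      y' ∈ χ.source ∧ ‖χ y'‖ < 1 / 2)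
    {q : ℕ} {e : N → V q} {Le l : ℝ} (hLe : 0 < Le) (hl0 : 0 < l)
    (hel : ∀ x ∈ χ.source, ‖χ x‖ ≤ 1 / 2 → ∀ ξ : V n, l * ‖ξ‖ ≤ ‖DE n e x (Sc χ (χ x) ξ)‖ ∧
        ‖DE n e x (Sc χ (χ x) ξ)‖ ≤ Le * ‖ξ‖)
    {m : ℕ} {Λ : ℝ} (hD : DerBd F χ m Λ) (hΛ : 16 ≤ Λ) (hΛn : 2 * ((n : ℝ) + 1) ≤ Λ)
    (hΛc : c⁻¹ ≤ Λ) (hm : (m : ℝ) ≤ Λ) (hm1 : 1 ≤ m) {ε : ℝ} (hε0 : 0 < ε) (hε : ε ≤ δ)
    (hε2 : ε * (8 * L ^ 2) ≤ Λ⁻¹ ^ tE k n) (hε3 : ε * (2 * Le) ≤ l * Λ⁻¹ ^ tE k n)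
    {z : N} (hz : z ∈ χ.source) (hz16 : ‖χ z‖ ≤ 1 / 16) :
    (dist (F^[m] z) z < ε → ∃ x, F^[m] x = x ∧ ε * dist x z ≤ dist (F^[m] z) z) ∧
    (F^[m] z = z → ∀ y, F^[m] y = y → dist z y < ε → y = z) ∧
    (F^[m] z = z → ∀ lam : ℂ,
      ((LinearMap.charpoly (DN n F^[m] z : V n →ₗ[ℝ] V n)).map (algebraMap ℝ ℂ)).IsRoot lam →
        ε ≤ |Real.log ‖lam‖|) ∧
    (F^[m] z = z → ∀ B : V n →L[ℝ] V n, (∀ v, ‖DE n e z (B v)‖ ≤ ε * ‖DE n e z v‖) →
      IsHypMap ((ContinuousLinearMap.id ℝ (V n) + B).comp (DN n F^[m] z))) := by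
  have hΛ0 : 0 < Λ := by linarith
  have hΛi : 0 < Λ⁻¹ := inv_pos.2 hΛ0
  have hΛi1 : Λ⁻¹ ≤ 1 := inv_le_one_of_one_le₀ (by linarith)
  have e16 : Λ⁻¹ ≤ 1 / 16 := by
    rw [one_div]
    exact inv_anti₀ (by norm_num) hΛ
  have hL0 : 0 < L := by linarith
  set σ : ℝ := Λ⁻¹ ^ sE k n with hσ
  have hσ0 : 0 < σ := by rw [hσ]; positivity
  have hσ1 : σ ≤ 1 := by rw [hσ]; exact pow_le_one₀ hΛi.le hΛi1
  set α : ℝ := Λ⁻¹ ^ aE k n with hα
  have hα0 : 0 < α := by rw [hα]; positivity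
  have hα1 : α ≤ 1 / 16 := by
    rw [hα]
    refine (pow_le_pow_of_le_one hΛi.le hΛi1 (by unfold aE; omega : 1 ≤ aE k n)).trans ?_
    rw [pow_one]
    exact e16
  have htE : Λ⁻¹ ^ tE k n = α * σ ^ 2 * Λ⁻¹ := by
    rw [hα, hσ]
    unfold tE
    ring
  rw [htE] at hε2 hε3
  have hL2 : 1 ≤ L ^ 2 := one_le_pow₀ hL1
  have hLL : L ≤ L ^ 2 := by nlinarith
  -- smallness of `L ε`
  have hσ2 : σ ^ 2 ≤ 1 := pow_le_one₀ hσ0.le hσ1
  have hσ2' : σ ^ 2 ≤ σ := by nlinarith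
  have hLε : ∀ ρ : ℝ, 0 ≤ ρ → ρ ≤ ε → 8 * (L * ρ) ≤ α * σ ^ 2 * Λ⁻¹ := by
    intro ρ hρ0 hρ
    refine le_trans ?_ hε2
    calc 8 * (L * ρ) ≤ 8 * (L ^ 2 * ρ) := by
          refine mul_le_mul_of_nonneg_left ?_ (by norm_num)
          exact mul_le_mul_of_nonneg_right hLL hρ0
      _ ≤ 8 * (L ^ 2 * ε) := by
          refine mul_le_mul_of_nonneg_left ?_ (by norm_num)
          exact mul_le_mul_of_nonneg_left hρ (by positivity)
      _ = ε * (8 * L ^ 2) := by ring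
  have hcore : ∀ y : N, dist z y < ε → y ∈ χ.source ∧ ‖χ y - χ z‖ ≤ L * dist z y ∧
      8 * ‖χ y - χ z‖ ≤ α * σ ^ 2 * Λ⁻¹ ∧ ‖χ y‖ ≤ 1 / 4 := by
    intro y hy
    obtain ⟨h1, h2⟩ := hδ z hz (by linarith) y (hy.trans_le hε)
    have h3 := (hL z hz y h1 (by linarith) h2.le).2
    rw [norm_sub_rev] at h3
    have h4 := hLε (dist z y) dist_nonneg hy.le
    have h5 : 8 * ‖χ y - χ z‖ ≤ α * σ ^ 2 * Λ⁻¹ := by linarith
    refine ⟨h1, h3, h5, ?_⟩
    have h6 : α * σ ^ 2 * Λ⁻¹ ≤ 1 / 16 * 1 * 1 := by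
      refine mul_le_mul (mul_le_mul hα1 hσ2 (by positivity) (by norm_num)) hΛi1 hΛi.le (by norm_num)
    calc ‖χ y‖ = ‖(χ y - χ z) + χ z‖ := by rw [sub_add_cancel]
      _ ≤ ‖χ y - χ z‖ + ‖χ z‖ := norm_add_le _ _
      _ ≤ 1 / 4 := by linarith
  -- the resolvent
  have hres : dist z (F^[m] z) < ε → ∀ ζ : ℂ, ‖ζ‖ = 1 → ∀ w : V n × V n,
      σ * ‖w‖ ≤ ‖cT (fderiv ℝ (χ ∘ F^[m] ∘ χ.symm) (χ z)) w - cm ζ w‖ := by
    intro hzε ζ hζ w
    obtain ⟨h1, h2, h3, h4⟩ := hcore _ hzε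
    refine loc_res hk hc0 hc1 hIR hD hΛ hΛn hΛc hm hz hz16 hm1 le_rfl h1 ?_ hζ w
    have h5 : α * σ ^ 2 * Λ⁻¹ ≤ α * 1 * 1 :=
      mul_le_mul (mul_le_mul_of_nonneg_left hσ2 hα0.le) hΛi1 hΛi.le (by positivity)
    have h6 : 0 ≤ ‖χ (F^[m] z) - χ z‖ := norm_nonneg _
    linarith
  have hres1 : dist z (F^[m] z) < ε → ∀ x : V n,
      σ * ‖x‖ ≤ ‖fderiv ℝ (χ ∘ F^[m] ∘ χ.symm) (χ z) x - x‖ := by
    intro hzε x
    have h1 := hres hzε 1 (by simp) (x, 0)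
    rw [cm_one] at h1
    have h2 : ‖((x, 0) : V n × V n)‖ = ‖x‖ := by
      rw [Prod.norm_def, norm_zero, max_eq_left (norm_nonneg _)]
    have h3 : cT (fderiv ℝ (χ ∘ F^[m] ∘ χ.symm) (χ z)) (x, 0) - (x, 0) =
        (fderiv ℝ (χ ∘ F^[m] ∘ χ.symm) (χ z) x - x, 0) := by
      refine Prod.ext rfl ?_
      show fderiv ℝ (χ ∘ F^[m] ∘ χ.symm) (χ z) 0 - 0 = 0
      rw [map_zero, sub_zero]
    rw [h2, h3, Prod.norm_def, norm_zero, max_eq_left (norm_nonneg _)] at h1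
    exact h1
  have hnewt := fun hzε : dist z (F^[m] z) < ε =>
    loc_newton hχ hD hΛ hσ0 hσ1 hz hz16 le_rfl (hcore _ hzε).1 (hcore _ hzε).2.2.2 (hres1 hzε)
  refine ⟨?_, ?_, ?_, ?_⟩
  · intro hd
    rw [dist_comm] at hd
    obtain ⟨h1, h2, h3, h4⟩ := hcore _ hd
    have h5 : ‖χ (F^[m] z) - χ z‖ ≤ σ ^ 2 * Λ⁻¹ / 8 := by
      have h6 : α * σ ^ 2 * Λ⁻¹ ≤ 1 * (σ ^ 2 * Λ⁻¹) := by
        rw [mul_assoc]
        exact mul_le_mul_of_nonneg_right (by linarith) (by positivity)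
      linarith
    obtain ⟨x, hxs, hx, hxd⟩ := (hnewt hd).2 h5
    refine ⟨x, hx, ?_⟩
    have h7 : ‖χ x‖ ≤ 1 / 2 := by
      have h8 : 2 / σ * ‖χ (F^[m] z) - χ z‖ ≤ 2 / σ * (σ ^ 2 * Λ⁻¹ / 8) :=
        mul_le_mul_of_nonneg_left h5 (by positivity)
      have h9 : 2 / σ * (σ ^ 2 * Λ⁻¹ / 8) = σ * Λ⁻¹ / 4 := by
        field_simp
        ring
      have h10 : σ * Λ⁻¹ ≤ 1 * 1 := mul_le_mul hσ1 hΛi1 hΛi.le (by norm_num)
      calc ‖χ x‖ = ‖(χ x - χ z) + χ z‖ := by rw [sub_add_cancel]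
        _ ≤ ‖χ x - χ z‖ + ‖χ z‖ := norm_add_le _ _
        _ ≤ 1 / 2 := by linarith
    have h8 := (hL x hxs z hz h7 (by linarith)).1
    rw [dist_comm (F^[m] z) z]
    have hε0 : 0 ≤ ε := dist_nonneg.trans hd.le
    calc ε * dist x z ≤ ε * (L * (2 / σ * (L * dist z (F^[m] z)))) := by
          refine mul_le_mul_of_nonneg_left (h8.trans ?_) hε0
          refine mul_le_mul_of_nonneg_left (hxd.trans ?_) hL0.le
          exact mul_le_mul_of_nonneg_left h2 (by positivity)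
      _ = (ε * (8 * L ^ 2)) * (1 / (4 * σ)) * dist z (F^[m] z) := by
          field_simp
          ring
      _ ≤ (α * σ ^ 2 * Λ⁻¹) * (1 / (4 * σ)) * dist z (F^[m] z) := by
          refine mul_le_mul_of_nonneg_right ?_ dist_nonneg
          exact mul_le_mul_of_nonneg_right hε2 (by positivity)
      _ = (α * σ * Λ⁻¹ / 4) * dist z (F^[m] z) := by
          field_simp
      _ ≤ 1 * dist z (F^[m] z) := by
          refine mul_le_mul_of_nonneg_right ?_ dist_nonneg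
          have h9 : α * σ * Λ⁻¹ ≤ 1 * 1 * 1 :=
            mul_le_mul (mul_le_mul (by linarith) hσ1 hσ0.le (by norm_num)) hΛi1 hΛi.le (by norm_num)
          linarith
      _ = _ := one_mul _
  · intro hzz y hyy hd
    have hzε : dist z (F^[m] z) < ε := by
      rw [hzz, dist_self]
      exact dist_nonneg.trans_lt hd
    obtain ⟨h1, h2, h3, h4⟩ := hcore y hd
    refine (hnewt hzε).1 hzz y h1 ?_ hyy
    have h5 : α * σ ^ 2 * Λ⁻¹ ≤ 1 / 16 * (σ * Λ⁻¹) := by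
      rw [mul_assoc]
      refine mul_le_mul hα1 ?_ (by positivity) (by norm_num)
      exact mul_le_mul_of_nonneg_right hσ2' hΛi.le
    have h6 : 0 < σ * Λ⁻¹ := by positivity
    linarith
  · intro hzz lam hl
    have hzε : dist z (F^[m] z) < ε := by
      rw [hzz, dist_self]
      exact hε0
    have hms : F^[m] z ∈ χ.source := (hcore _ hzε).1
    have e1 : fderiv ℝ (χ ∘ F^[m] ∘ χ.symm) (χ z) =
        (Tc χ z).comp ((DN n (F^[m]) z).comp (Sc χ (χ z))) := by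
      have := ret_fderiv hr F hχ.mem hz m hms
      rw [hzz] at this
      exact this
    have e2 : LinearMap.charpoly (fderiv ℝ (χ ∘ F^[m] ∘ χ.symm) (χ z) : V n →ₗ[ℝ] V n) =
        LinearMap.charpoly (DN n F^[m] z : V n →ₗ[ℝ] V n) := by
      rw [e1]
      exact charpoly_conj (TS hχ.mem hz) (ST hχ.mem hz)
    have h1 := eig_of_res (T := fderiv ℝ (χ ∘ F^[m] ∘ χ.symm) (χ z))
      (ret_inj hr F hχ.mem hz m hms) hσ0 hσ1 (hres hzε) (lam := lam) (by rw [e2]; exact hl)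
    refine le_trans ?_ h1
    have h2 : ε ≤ ε * (8 * L ^ 2) := by nlinarith
    have h3 : α * σ ^ 2 * Λ⁻¹ ≤ 1 / 16 * σ * 1 :=
      mul_le_mul (mul_le_mul hα1 hσ2' (by positivity) (by norm_num)) hΛi1 hΛi.le (by positivity)
    linarith
  · intro hzz B hB
    have hzε : dist z (F^[m] z) < ε := by
      rw [hzz, dist_self]
      exact hε0
    have hms : F^[m] z ∈ χ.source := (hcore _ hzε).1
    have e1 : fderiv ℝ (χ ∘ F^[m] ∘ χ.symm) (χ z) =
        (Tc χ z).comp ((DN n (F^[m]) z).comp (Sc χ (χ z))) := by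
      have := ret_fderiv hr F hχ.mem hz m hms
      rw [hzz] at this
      exact this
    have hmz : |(m : ℤ)| ≤ 2 * m := by
      rw [abs_of_nonneg (by positivity)]
      have h2 : (0 : ℤ) ≤ m := by positivity
      linarith
    have hAn : ‖fderiv ℝ (χ ∘ F^[m] ∘ χ.symm) (χ z)‖ ≤ Λ := by
      have h1 := (hD.h2 m hmz z hz (by linarith) (by rw [it_nat]; exact hms)
        (by rw [it_nat]; exact (hcore _ hzε).2.2.2) (χ z) (mem_ball_self hΛi)).2.1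
      rw [it_nat] at h1
      exact h1
    set A : V n →L[ℝ] V n := fderiv ℝ (χ ∘ F^[m] ∘ χ.symm) (χ z) with hA
    have hTS := TS hχ.mem hz
    have hST := ST hχ.mem hz
    set T := Tc χ z with hT
    set S := Sc χ (χ z) with hS
    have hST' : ∀ v, S (T v) = v := fun v => congrArg (fun A : V n →L[ℝ] V n => A v) hST
    have hTS' : ∀ v, T (S v) = v := fun v => congrArg (fun A : V n →L[ℝ] V n => A v) hTS
    set B' : V n →L[ℝ] V n := T.comp (B.comp S) with hB'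
    have hB'n : ‖B'‖ ≤ ε * Le / l := by
      refine ContinuousLinearMap.opNorm_le_bound _ (by positivity) fun ξ => ?_
      have h1 := (hel z hz (by linarith) (B' ξ)).1
      have h2 : S (B' ξ) = B (S ξ) := hST' _
      rw [h2] at h1
      have h3 := hB (S ξ)
      have h4 := (hel z hz (by linarith) ξ).2
      rw [div_mul_eq_mul_div, le_div_iff₀ hl0]
      have h5 : ε * ‖DE n e z (S ξ)‖ ≤ ε * (Le * ‖ξ‖) := mul_le_mul_of_nonneg_left h4 hε0.le
      linarith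
    have hconj : (ContinuousLinearMap.id ℝ (V n) + B').comp A =
        T.comp (((ContinuousLinearMap.id ℝ (V n) + B).comp (DN n F^[m] z)).comp S) := by
      ext1 v
      have e2 : A v = T (DN n F^[m] z (S v)) := by rw [e1]; rfl
      simp only [ContinuousLinearMap.comp_apply, add_apply, ContinuousLinearMap.id_apply, map_add,
        e2, hB', hST']
    intro μ hμ hμ1
    rw [← charpoly_conj hTS hST, ← hconj] at hμ
    obtain ⟨w, hw0, hw⟩ := exists_pair _ hμ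
    have hwp : 0 < ‖w‖ := norm_pos_iff.2 hw0
    have h5 : cT A w - cm μ w = -cT (B'.comp A) w := by
      rw [← hw]
      refine Prod.ext ?_ ?_
      · show A w.1 - ((ContinuousLinearMap.id ℝ (V n) + B').comp A) w.1 = -((B'.comp A) w.1)
        simp only [ContinuousLinearMap.comp_apply, add_apply, ContinuousLinearMap.id_apply]
        abel
      · show A w.2 - ((ContinuousLinearMap.id ℝ (V n) + B').comp A) w.2 = -((B'.comp A) w.2)
        simp only [ContinuousLinearMap.comp_apply, add_apply, ContinuousLinearMap.id_apply]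
        abel
    have h6 := hres hzε μ hμ1 w
    rw [h5, norm_neg] at h6
    have h7 : ‖cT (B'.comp A) w‖ ≤ (ε * Le / l * Λ) * ‖w‖ := by
      refine (norm_cT_le _ _).trans (mul_le_mul_of_nonneg_right ?_ (norm_nonneg _))
      exact (ContinuousLinearMap.opNorm_comp_le _ _).trans
        (mul_le_mul hB'n hAn (norm_nonneg _) (by positivity))
    have h8 : σ ≤ ε * Le / l * Λ := le_of_mul_le_mul_right (h6.trans h7) hwp
    have h9 : ε * Le / l * Λ ≤ α * σ ^ 2 / 2 := by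
      have h10 : ε * Le / l ≤ α * σ ^ 2 * Λ⁻¹ / 2 := by
        rw [div_le_iff₀ hl0]
        linarith
      calc ε * Le / l * Λ ≤ (α * σ ^ 2 * Λ⁻¹ / 2) * Λ := mul_le_mul_of_nonneg_right h10 hΛ0.le
        _ = (Λ⁻¹ * Λ) * (α * σ ^ 2 / 2) := by ring
        _ = _ := by rw [inv_mul_cancel₀ hΛ0.ne', one_mul]
    have h10 : α * σ ^ 2 ≤ 1 / 16 * σ := mul_le_mul hα1 hσ2' (by positivity) (by norm_num)
    linarith

/-- **Quantitative hyperbolicity of the points of period `m`.** -/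
theorem glob (hr : 2 ≤ r) (hN : ChartLip n N) (F : DiffM n N r) (hF : OmegaStable n N r F)
    (Γ : ℕ → ℝ) (hΓ : ∀ m, LipTo F m (Γ m)) (hmΓ : ∀ m : ℕ, (m : ℝ) ≤ Γ m) :
    ∃ k : ℕ, (k : ℕ∞) ≤ r ∧ ∀ (q : ℕ) (e : N → V q), IsImm n e → ∃ c : ℝ, 0 < c ∧
      ∀ m : ℕ, 1 ≤ m → QuantPer n e F m (c / (Γ m) ^ (4 * tE k n)) := by
  classical
  have hr1 : (1 : ℕ∞) ≤ r := le_trans (by norm_num) hr
  choose χ hχ using fun z : N => Pool.Agent.W699.SC.gc n N z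
  obtain ⟨T, hT⟩ := CompactSpace.elim_nhds_subcover
    (fun z : N => (χ z).source ∩ (χ z) ⁻¹' ball 0 (1 / 16)) (fun z => by
      refine ((χ z).isOpen_inter_preimage isOpen_ball).mem_nhds ⟨(hχ z).src, ?_⟩
      rw [mem_preimage, (hχ z).zero]
      exact mem_ball_self (by norm_num))
  have hcov : ∀ y, ∃ b ∈ T, y ∈ (χ b).source ∧ ‖χ b y‖ ≤ 1 / 16 := by
    intro y
    have hy : y ∈ (⊤ : Set N) := mem_univ y
    rw [← hT, mem_iUnion₂] at hy
    obtain ⟨b, hb, h3, h4⟩ := hy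
    rw [mem_preimage, mem_ball_zero_iff] at h4
    exact ⟨b, hb, h3, h4.le⟩
  obtain ⟨k, hk1, hkr, c, hc0, hc1, hIR⟩ := exists_HIR hr1 F hF χ id hχ T
  refine ⟨k, hkr, fun q e he => ?_⟩
  have hunie : ∃ Le l : ℝ, 1 ≤ Le ∧ 0 < l ∧ ∀ b ∈ T, ∀ x ∈ (χ b).source, ‖χ b x‖ ≤ 1 / 2 →
      ∀ ξ : V n, l * ‖ξ‖ ≤ ‖DE n e x (Sc (χ b) (χ b x) ξ)‖ ∧
        ‖DE n e x (Sc (χ b) (χ b x) ξ)‖ ≤ Le * ‖ξ‖ := by
    clear hcov hIR hT
    induction T using Finset.induction_on with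
    | empty => exact ⟨1, 1, le_rfl, one_pos, by simp⟩
    | insert a T ha ih =>
      obtain ⟨Le, l, hLe, hl, h⟩ := ih
      obtain ⟨Le', l', hLe', hl', -, h'⟩ := Pool.Agent.K4H47.RH.chart_consts (hχ a) he
      refine ⟨max Le Le', min l l', le_max_of_le_left hLe, lt_min hl hl', ?_⟩
      intro b hb x hx hx2 ξ
      rcases Finset.mem_insert.1 hb with rfl | hb
      · obtain ⟨h1, h2⟩ := h' x hx hx2 ξ
        exact ⟨(mul_le_mul_of_nonneg_right (min_le_right _ _) (norm_nonneg _)).trans h1,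
          h2.trans (mul_le_mul_of_nonneg_right (le_max_right _ _) (norm_nonneg _))⟩
      · obtain ⟨h1, h2⟩ := h b hb x hx hx2 ξ
        exact ⟨(mul_le_mul_of_nonneg_right (min_le_left _ _) (norm_nonneg _)).trans h1,
          h2.trans (mul_le_mul_of_nonneg_right (le_max_left _ _) (norm_nonneg _))⟩
  obtain ⟨Le, l, hLe, hl0, helT⟩ := hunie
  have huni : ∃ L δ K : ℝ, 1 ≤ L ∧ 0 < δ ∧ 16 ≤ K ∧ ∀ b ∈ T,
      (∀ y ∈ (χ b).source, ∀ y' ∈ (χ b).source, ‖χ b y‖ ≤ 1 / 2 → ‖χ b y'‖ ≤ 1 / 2 →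
        dist y y' ≤ L * ‖χ b y - χ b y'‖ ∧ ‖χ b y - χ b y'‖ ≤ L * dist y y') ∧
      (∀ y ∈ (χ b).source, ‖χ b y‖ ≤ 1 / 4 → ∀ y', dist y y' < δ →
        y' ∈ (χ b).source ∧ ‖χ b y'‖ < 1 / 2) ∧
      (∀ m : ℕ, 1 ≤ m → DerBd F (χ b) m (K * (m * Γ m ^ 3))) := by
    clear hcov hIR hT helT
    induction T using Finset.induction_on with
    | empty => exact ⟨1, 1, 16, le_rfl, one_pos, le_rfl, by simp⟩
    | insert a T ha ih =>
      obtain ⟨L, δ, K, hL, hδ, hK, h⟩ := ih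
      obtain ⟨L', hL', h1⟩ := hN (χ a) a (hχ a)
      obtain ⟨δ', hδ', h2⟩ := unif_close (hχ a)
      obtain ⟨C₀, hC₀, h3⟩ := derBd hr hN F (χ a) a (hχ a)
      have hpos : ∀ m : ℕ, 1 ≤ m → 0 < (m : ℝ) * Γ m ^ 3 := by
        intro m hm
        have e1 : (1 : ℝ) ≤ m := by exact_mod_cast hm
        have e2 := hmΓ m
        have e3 : 0 < Γ m := by linarith
        positivity
      refine ⟨max L L', min δ δ', max K C₀, le_max_of_le_left hL, lt_min hδ hδ',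
        le_max_of_le_left hK, ?_⟩
      intro b hb
      rcases Finset.mem_insert.1 hb with rfl | hb
      · refine ⟨fun y hy y' hy' h5 h6 => ?_, fun y hy h5 y' h6 =>
          h2 y hy h5 y' (h6.trans_le (min_le_right _ _)), fun m hm => ?_⟩
        · obtain ⟨h7, h8⟩ := h1 y hy y' hy' h5 h6
          exact ⟨h7.trans (mul_le_mul_of_nonneg_right (le_max_right _ _) (norm_nonneg _)),
            h8.trans (mul_le_mul_of_nonneg_right (le_max_right _ _) dist_nonneg)⟩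
        · have e1 : (1 : ℝ) ≤ m := by exact_mod_cast hm
          have e2 := hmΓ m
          refine derBd_mono (h3 m hm (Γ m) (e1.trans e2) (hΓ m)) (mul_pos (by linarith) (hpos m hm)) ?_
          exact mul_le_mul_of_nonneg_right (le_max_right _ _) (hpos m hm).le
      · obtain ⟨g1, g2, g3⟩ := h b hb
        refine ⟨fun y hy y' hy' h5 h6 => ?_, fun y hy h5 y' h6 =>
          g2 y hy h5 y' (h6.trans_le (min_le_left _ _)), fun m hm => ?_⟩
        · obtain ⟨h7, h8⟩ := g1 y hy y' hy' h5 h6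
          exact ⟨h7.trans (mul_le_mul_of_nonneg_right (le_max_left _ _) (norm_nonneg _)),
            h8.trans (mul_le_mul_of_nonneg_right (le_max_left _ _) dist_nonneg)⟩
        · refine derBd_mono (g3 m hm) (mul_pos (by linarith) (hpos m hm)) ?_
          exact mul_le_mul_of_nonneg_right (le_max_left _ _) (hpos m hm).le
  obtain ⟨L, δ, K, hL1, hδ0, hK, hall⟩ := huni
  set K' : ℝ := K + 2 * (n + 1) + c⁻¹ with hK'
  have hn0 : (0 : ℝ) ≤ n := Nat.cast_nonneg n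
  have hci : 0 < c⁻¹ := inv_pos.2 hc0
  have hK'16 : 16 ≤ K' := by rw [hK']; linarith
  have hK'0 : 0 < K' := by linarith
  set t := tE k n with ht
  set M : ℝ := min (min δ 1) (l / (2 * Le)) with hM
  have hLe0 : 0 < Le := by linarith
  have hmin : 0 < M := lt_min (lt_min hδ0 one_pos) (by positivity)
  have hMδ : M ≤ δ := (min_le_left _ _).trans (min_le_left _ _)
  have hM1 : M ≤ 1 := (min_le_left _ _).trans (min_le_right _ _)
  have hMl : M * (2 * Le) ≤ l := by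
    have : M ≤ l / (2 * Le) := min_le_right _ _
    rwa [le_div_iff₀ (by positivity)] at this
  set c' : ℝ := M * (K'⁻¹ ^ t / (8 * L ^ 2)) with hc'
  have hc'0 : 0 < c' := by rw [hc']; positivity
  refine ⟨c', hc'0, fun m hm => ?_⟩
  have e1 : (1 : ℝ) ≤ m := by exact_mod_cast hm
  have e2 := hmΓ m
  set G := Γ m with hG
  have hG1 : 1 ≤ G := e1.trans e2
  have hG0 : 0 < G := by linarith
  set Λ : ℝ := K' * (m * G ^ 3) with hΛ
  have hG3 : 1 ≤ G ^ 3 := one_le_pow₀ hG1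
  have hmG : 1 ≤ m * G ^ 3 := by nlinarith
  have hΛK : K' ≤ Λ := by rw [hΛ]; nlinarith
  have hΛ0 : 0 < Λ := by linarith
  have hmΛ : (m : ℝ) ≤ Λ := by
    rw [hΛ]
    calc (m : ℝ) ≤ m * G ^ 3 := le_mul_of_one_le_right (by linarith) hG3
      _ = 1 * (m * G ^ 3) := (one_mul _).symm
      _ ≤ K' * (m * G ^ 3) := mul_le_mul_of_nonneg_right (by linarith) (by positivity)
  have hΛG : Λ ≤ K' * G ^ 4 := by
    rw [hΛ]
    refine mul_le_mul_of_nonneg_left ?_ hK'0.le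
    calc (m : ℝ) * G ^ 3 ≤ G * G ^ 3 := mul_le_mul_of_nonneg_right e2 (by positivity)
      _ = G ^ 4 := by ring
  set ε : ℝ := c' / G ^ (4 * t) with hε
  have hε0 : 0 < ε := by rw [hε]; positivity
  have hGt : 1 ≤ G ^ (4 * t) := one_le_pow₀ hG1
  have hK'i : K'⁻¹ ^ t ≤ 1 := pow_le_one₀ (inv_pos.2 hK'0).le (inv_le_one_of_one_le₀ (by linarith))
  have hL2 : 1 ≤ L ^ 2 := one_le_pow₀ hL1
  have hεδ : ε ≤ δ := by
    have h1 : ε ≤ c' := by
      rw [hε]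
      exact div_le_self hc'0.le hGt
    have h2 : c' ≤ M := by
      rw [hc']
      refine mul_le_of_le_one_right hmin.le ?_
      rw [div_le_one (by positivity)]
      linarith
    exact h1.trans (h2.trans hMδ)
  have hεM : ε * (8 * L ^ 2) ≤ M * Λ⁻¹ ^ tE k n := by
    have h1 : ε * (8 * L ^ 2) = M * (K'⁻¹ ^ t * (G ^ (4 * t))⁻¹) := by
      rw [hε, hc']
      field_simp
    rw [h1]
    have h2 : K'⁻¹ ^ t * (G ^ (4 * t))⁻¹ = (K' * G ^ 4)⁻¹ ^ t := by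
      rw [pow_mul, ← inv_pow, ← mul_pow, ← mul_inv]
    rw [h2]
    exact mul_le_mul_of_nonneg_left
      (pow_le_pow_left₀ (by positivity) (inv_anti₀ hΛ0 hΛG) t) hmin.le
  have hΛt : 0 < Λ⁻¹ ^ tE k n := by positivity
  have hε2 : ε * (8 * L ^ 2) ≤ Λ⁻¹ ^ tE k n :=
    hεM.trans (mul_le_of_le_one_left hΛt.le hM1)
  have hε3 : ε * (2 * Le) ≤ l * Λ⁻¹ ^ tE k n := by
    have h1 : ε ≤ M * Λ⁻¹ ^ tE k n := by
      refine le_trans ?_ hεM
      have : 1 ≤ 8 * L ^ 2 := by linarith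
      exact le_mul_of_one_le_right hε0.le this
    calc ε * (2 * Le) ≤ (M * Λ⁻¹ ^ tE k n) * (2 * Le) :=
          mul_le_mul_of_nonneg_right h1 (by positivity)
      _ = (M * (2 * Le)) * Λ⁻¹ ^ tE k n := by ring
      _ ≤ l * Λ⁻¹ ^ tE k n := mul_le_mul_of_nonneg_right hMl hΛt.le
  have hone : ∀ z : N, (dist (F^[m] z) z < ε → ∃ x, F^[m] x = x ∧ ε * dist x z ≤ dist (F^[m] z) z) ∧
    (F^[m] z = z → ∀ y, F^[m] y = y → dist z y < ε → y = z) ∧
    (F^[m] z = z → ∀ lam : ℂ,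
      ((LinearMap.charpoly (DN n F^[m] z : V n →ₗ[ℝ] V n)).map (algebraMap ℝ ℂ)).IsRoot lam →
        ε ≤ |Real.log ‖lam‖|) ∧
    (F^[m] z = z → ∀ B : V n →L[ℝ] V n, (∀ v, ‖DE n e z (B v)‖ ≤ ε * ‖DE n e z v‖) →
      IsHypMap ((ContinuousLinearMap.id ℝ (V n) + B).comp (DN n F^[m] z))) := by
    intro z
    obtain ⟨b, hb, hbs, hb16⟩ := hcov z
    obtain ⟨h1, h2, h3⟩ := hall b hb
    have hDB : DerBd F (χ b) m Λ := by
      refine derBd_mono (h3 m hm) (mul_pos (by linarith) (by positivity)) ?_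
      rw [hΛ]
      refine mul_le_mul_of_nonneg_right ?_ (by positivity)
      rw [hK']
      linarith
    exact chart_quant hr1 (hχ b) hk1 hc0 hc1 (hIR b hb) hL1 h1 h2 hLe0 hl0 (helT b hb) hDB
      (by linarith) (by rw [hK'] at hΛK; linarith) (by rw [hK'] at hΛK; linarith) hmΛ hm hε0 hεδ
      hε2 hε3 hbs hb16
  exact ⟨fun z => (hone z).1, fun x y hx hy hxy => by
    by_contra h1
    exact hxy ((hone x).2.1 hx y hy (not_le.1 h1)).symm, fun x hx => (hone x).2.2.1 hx,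
    fun x hx => (hone x).2.2.2 hx⟩

/-- diffeomorphisms are Lipschitz -/
theorem exists_lip (hr : 1 ≤ r) (hN : ChartLip n N) (F : DiffM n N r) :
    ∃ L : ℝ, 1 ≤ L ∧ ∀ x y, dist (F x) (F y) ≤ L * dist x y := by
  have hloc : LocallyLipschitzOn (univ : Set N) F := by
    intro x _
    obtain ⟨χ₁, h₁⟩ := Pool.Agent.W699.SC.gc n N x
    obtain ⟨χ₂, h₂⟩ := Pool.Agent.W699.SC.gc n N (F x)
    obtain ⟨L₁, hL₁, g₁⟩ := hN χ₁ x h₁
    obtain ⟨L₂, hL₂, g₂⟩ := hN χ₂ (F x) h₂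
    have hxt : χ₁ x ∈ χ₁.target := χ₁.map_source h₁.src
    have hcd : ContDiffAt ℝ 1 (χ₂ ∘ F ∘ χ₁.symm) (χ₁ x) := by
      rw [← contMDiffAt_iff_contDiffAt]
      have m1 : ContMDiffAt (𝓡 n) (𝓡 n) 1 χ₁.symm (χ₁ x) :=
        ((contMDiffOn_symm_of_mem_maximalAtlas h₁.mem).contMDiffAt
          (χ₁.open_target.mem_nhds hxt)).of_le (by norm_cast)
      have m2 : ContMDiffAt (𝓡 n) (𝓡 n) 1 F (χ₁.symm (χ₁ x)) :=
        (F.contMDiff.contMDiffAt).of_le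
          (show ((1 : ℕ∞) : WithTop ℕ∞) ≤ (r : WithTop ℕ∞) from WithTop.coe_le_coe.mpr hr)
      have m3 : ContMDiffAt (𝓡 n) (𝓡 n) 1 χ₂ (F (χ₁.symm (χ₁ x))) := by
        rw [χ₁.left_inv h₁.src]
        exact ((contMDiffOn_of_mem_maximalAtlas h₂.mem).contMDiffAt
          (χ₂.open_source.mem_nhds h₂.src)).of_le (by norm_cast)
      exact ContMDiffAt.comp (χ₁ x) m3 (m2.comp (χ₁ x) m1)
    obtain ⟨K, t, ht, hK⟩ := hcd.exists_lipschitzOnWith
    have hs1 : χ₁.source ∩ χ₁ ⁻¹' (ball 0 (1 / 2)) ∈ 𝓝 x := by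
      refine (χ₁.isOpen_inter_preimage isOpen_ball).mem_nhds ⟨h₁.src, ?_⟩
      rw [mem_preimage, h₁.zero]
      exact mem_ball_self (by norm_num)
    have hs2 : F ⁻¹' (χ₂.source ∩ χ₂ ⁻¹' (ball 0 (1 / 2))) ∈ 𝓝 x := by
      refine F.continuous.continuousAt.preimage_mem_nhds
        ((χ₂.isOpen_inter_preimage isOpen_ball).mem_nhds ⟨h₂.src, ?_⟩)
      rw [mem_preimage, h₂.zero]
      exact mem_ball_self (by norm_num)
    have hs3 : χ₁ ⁻¹' t ∈ 𝓝 x := (χ₁.continuousAt h₁.src).preimage_mem_nhds ht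
    refine ⟨⟨L₂ * (K * L₁), by positivity⟩, _,
      mem_nhdsWithin_of_mem_nhds (inter_mem hs1 (inter_mem hs2 hs3)), ?_⟩
    refine LipschitzOnWith.of_dist_le_mul fun y hy y' hy' => ?_
    obtain ⟨⟨a1, a2⟩, ⟨a3, a4⟩, a5⟩ := hy
    obtain ⟨⟨b1, b2⟩, ⟨b3, b4⟩, b5⟩ := hy'
    rw [mem_preimage, mem_ball_zero_iff] at a2 a4 b2 b4
    have h3 := (g₂ (F y) a3 (F y') b3 a4.le b4.le).1
    have h4 := (g₁ y a1 y' b1 a2.le b2.le).2
    have h5 := hK.dist_le_mul (χ₁ y) a5 (χ₁ y') b5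
    simp only [Function.comp] at h5
    rw [χ₁.left_inv a1, χ₁.left_inv b1, dist_eq_norm, dist_eq_norm] at h5
    calc dist (F y) (F y') ≤ L₂ * ‖χ₂ (F y) - χ₂ (F y')‖ := h3
      _ ≤ L₂ * (K * ‖χ₁ y - χ₁ y'‖) := mul_le_mul_of_nonneg_left h5 hL₂.le
      _ ≤ L₂ * (K * (L₁ * dist y y')) := by
        refine mul_le_mul_of_nonneg_left ?_ hL₂.le
        exact mul_le_mul_of_nonneg_left h4 K.2
      _ = L₂ * (K * L₁) * dist y y' := by ring
  obtain ⟨K, hK⟩ := hloc.exists_lipschitzOnWith_of_compact isCompact_univ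
  refine ⟨max 1 K, le_max_left _ _, fun x y => ?_⟩
  exact (hK.dist_le_mul x (mem_univ x) y (mem_univ y)).trans
    (mul_le_mul_of_nonneg_right (le_max_right _ _) dist_nonneg)

theorem lip_iter {X : Type*} [MetricSpace X] {f : X → X} {L : ℝ} (hL : 1 ≤ L)
    (h : ∀ x y, dist (f x) (f y) ≤ L * dist x y) (i : ℕ) (x y : X) :
    dist (f^[i] x) (f^[i] y) ≤ L ^ i * dist x y := by
  induction i with
  | zero => simp
  | succ i ih =>
    rw [Function.iterate_succ_apply', Function.iterate_succ_apply']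
    calc _ ≤ L * dist (f^[i] x) (f^[i] y) := h _ _
      _ ≤ L * (L ^ i * dist x y) := mul_le_mul_of_nonneg_left ih (by linarith)
      _ = _ := by ring

/-- **Exponential hyperbolicity of the points of period `m`.** -/
theorem glob_exp (hr : 2 ≤ r) (hN : ChartLip n N) (F : DiffM n N r) (hF : OmegaStable n N r F) :
    ∃ C : ℝ, 0 < C ∧ ∀ (q : ℕ) (e : N → V q), IsImm n e → ∃ c : ℝ, 0 < c ∧
      ∀ m : ℕ, 1 ≤ m → QuantPer n e F m (c * Real.exp (-(C * m))) := by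
  have hr1 : (1 : ℕ∞) ≤ r := le_trans (by norm_num) hr
  obtain ⟨L₁, hL₁, g₁⟩ := exists_lip hr1 hN F
  obtain ⟨L₂, hL₂, g₂⟩ := exists_lip hr1 hN F.symm
  set L : ℝ := max 2 (max L₁ L₂) with hL
  have hL2 : 2 ≤ L := le_max_left _ _
  have hL1 : 1 ≤ L := by linarith
  have hL0 : 0 < L := by linarith
  obtain ⟨k, hkr, h⟩ := glob hr hN F hF (fun m => L ^ (2 * m)) (by
    intro m i hi x y
    have hLi : L ^ i ≤ L ^ (2 * m) := pow_le_pow_right₀ hL1 hi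
    refine ⟨(lip_iter hL1 (fun x y => (g₁ x y).trans (mul_le_mul_of_nonneg_right
      ((le_max_left _ _).trans (le_max_right _ _)) dist_nonneg)) i x y).trans
      (mul_le_mul_of_nonneg_right hLi dist_nonneg), (lip_iter hL1 (fun x y => (g₂ x y).trans
      (mul_le_mul_of_nonneg_right ((le_max_right _ _).trans (le_max_right _ _)) dist_nonneg)) i x
      y).trans (mul_le_mul_of_nonneg_right hLi dist_nonneg)⟩) (by
    intro m
    calc (m : ℝ) ≤ 2 ^ m := by exact_mod_cast Nat.lt_two_pow_self.le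
      _ ≤ L ^ m := pow_le_pow_left₀ (by norm_num) hL2 m
      _ ≤ L ^ (2 * m) := pow_le_pow_right₀ hL1 (by omega))
  have hlogL : 0 ≤ Real.log L := Real.log_nonneg hL1
  set t := 4 * tE k n with ht
  refine ⟨2 * t * Real.log L + 1, by positivity, fun q e he => ?_⟩
  obtain ⟨c, hc, h⟩ := h q e he
  refine ⟨c, hc, fun m hm => ?_⟩
  refine (h m hm).mono ?_
  show _ ≤ c / (L ^ (2 * m)) ^ t
  rw [div_eq_mul_inv]
  refine mul_le_mul_of_nonneg_left ?_ hc.le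
  have e2 : ((L ^ (2 * m)) ^ t)⁻¹ = Real.exp (-(2 * t * Real.log L * m)) := by
    rw [Real.exp_neg, ← pow_mul]
    congr 1
    rw [← Real.exp_log (pow_pos hL0 (2 * m * t)), Real.log_pow]
    congr 1
    push_cast
    ring
  rw [e2, Real.exp_le_exp]
  have e3 : (0 : ℝ) ≤ m := Nat.cast_nonneg m
  nlinarith

end

end Pool.Agent.H74.EH
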