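import Pool.Agent.H74.EH.Cx

/-!
# Newton's method
-/

set_option autoImplicit false

open Filter Set Metric

namespace Pool.Agent.H74.EH

open Pool.Agent.H718R2.G

section

variable {n : ℕ}

theorem newton {g : V n → V n} {p : V n} {Λ σ : ℝ} (hΛ : 1 ≤ Λ) (hσ0 : 0 < σ) (hσ1 : σ ≤ 1)
    (hd : ∀ x ∈ ball p Λ⁻¹, DifferentiableAt ℝ g x ∧
      ‖fderiv ℝ g x - fderiv ℝ g p‖ ≤ Λ * ‖x - p‖)
    (hL : ∀ x, σ * ‖x‖ ≤ ‖fderiv ℝ g p x - x‖) :
    (∀ x ∈ ball p (σ * Λ⁻¹ / 2), ∀ x' ∈ ball p (σ * Λ⁻¹ / 2),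
      σ / 2 * ‖x - x'‖ ≤ ‖(g x - x) - (g x' - x')‖) ∧
    (‖g p - p‖ ≤ σ ^ 2 * Λ⁻¹ / 8 → ∃ x, ‖x - p‖ ≤ 2 / σ * ‖g p - p‖ ∧ g x = x) := by
  have hΛ0 : 0 < Λ := by linarith
  have hL0 : 0 < Λ⁻¹ := inv_pos.2 hΛ0
  set R : ℝ := σ * Λ⁻¹ / 2 with hR
  have hR0 : 0 < R := by rw [hR]; positivity
  have hRΛ : R ≤ Λ⁻¹ := by
    rw [hR]
    nlinarith
  set L : V n →L[ℝ] V n := fderiv ℝ g p - ContinuousLinearMap.id ℝ (V n) with hLd
  have hLx : ∀ x, L x = fderiv ℝ g p x - x := fun x => rfl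
  set G : V n → V n := fun x => g x - x with hG
  have hder : ∀ x ∈ ball p R, HasFDerivWithinAt G (fderiv ℝ g x - ContinuousLinearMap.id ℝ (V n))
      (ball p R) x := by
    intro x hx
    have hx' : x ∈ ball p Λ⁻¹ := ball_subset_ball hRΛ hx
    exact ((hd x hx').1.hasFDerivAt.sub (hasFDerivAt_id x)).hasFDerivWithinAt
  have hbd : ∀ x ∈ ball p R, ‖(fderiv ℝ g x - ContinuousLinearMap.id ℝ (V n)) - L‖ ≤ σ / 2 := by
    intro x hx
    have hx' : x ∈ ball p Λ⁻¹ := ball_subset_ball hRΛ hx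
    have e : (fderiv ℝ g x - ContinuousLinearMap.id ℝ (V n)) - L = fderiv ℝ g x - fderiv ℝ g p := by
      rw [hLd]
      abel
    rw [e]
    refine (hd x hx').2.trans ?_
    rw [mem_ball, dist_eq_norm] at hx
    calc Λ * ‖x - p‖ ≤ Λ * R := mul_le_mul_of_nonneg_left hx.le hΛ0.le
      _ = (Λ * Λ⁻¹) * (σ / 2) := by rw [hR]; ring
      _ = σ / 2 := by rw [mul_inv_cancel₀ hΛ0.ne', one_mul]
  have hmv : ∀ x ∈ ball p R, ∀ x' ∈ ball p R, ‖G x' - G x - L (x' - x)‖ ≤ σ / 2 * ‖x' - x‖ :=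
    fun x hx x' hx' => (convex_ball p R).norm_image_sub_le_of_norm_hasFDerivWithin_le'
      hder hbd hx hx'
  refine ⟨?_, ?_⟩
  · intro x hx x' hx'
    have h1 := hmv x' hx' x hx
    have h2 := hL (x - x')
    rw [← hLx] at h2
    have h3 : L (x - x') = (G x - G x') - (G x - G x' - L (x - x')) := by abel
    have h4 : ‖L (x - x')‖ ≤ ‖G x - G x'‖ + ‖G x - G x' - L (x - x')‖ := by
      calc ‖L (x - x')‖ = ‖(G x - G x') - (G x - G x' - L (x - x'))‖ := by rw [← h3]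
        _ ≤ _ := norm_sub_le _ _
    have h5 : ‖G x - G x'‖ = ‖(g x - x) - (g x' - x')‖ := rfl
    linarith
  · intro hp
    have hinj : Function.Injective (L : V n →ₗ[ℝ] V n) := by
      rw [injective_iff_map_eq_zero]
      intro x hx
      have h3 := hL x
      have h4 : fderiv ℝ g p x - x = 0 := hx
      rw [h4, norm_zero] at h3
      have : ‖x‖ ≤ 0 := by
        by_contra h5
        push Not at h5
        have := mul_pos hσ0 h5
        linarith
      exact norm_le_zero_iff.1 this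
    set Q := LinearEquiv.ofInjectiveEndo (L : V n →ₗ[ℝ] V n) hinj with hQ
    have hLQ : ∀ x, L (Q.symm x) = x := by
      intro x
      have : L (Q.symm x) = Q (Q.symm x) := rfl
      rw [this, LinearEquiv.apply_symm_apply]
    let S : ContinuousLinearMap.NonlinearRightInverse L :=
      { toFun := Q.symm
        nnnorm := ⟨σ⁻¹, (inv_pos.2 hσ0).le⟩
        bound' := by
          intro y
          have h3 := hL (Q.symm y)
          rw [← hLx, hLQ] at h3
          show ‖Q.symm y‖ ≤ σ⁻¹ * ‖y‖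
          rw [le_inv_mul_iff₀ hσ0]
          exact h3
        right_inv' := hLQ }
    have happ : ApproximatesLinearOn G L (ball p R) ⟨σ / 2, by positivity⟩ := by
      intro x hx x' hx'
      exact hmv x' hx' x hx
    set e : ℝ := 2 / σ * ‖g p - p‖ with he
    have he0 : 0 ≤ e := by positivity
    have heR : closedBall p e ⊆ ball p R := by
      refine closedBall_subset_ball ?_
      have h1 : e ≤ 2 / σ * (σ ^ 2 * Λ⁻¹ / 8) := mul_le_mul_of_nonneg_left hp (by positivity)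
      have h2 : 2 / σ * (σ ^ 2 * Λ⁻¹ / 8) = σ * Λ⁻¹ / 4 := by
        field_simp
        ring
      rw [h2] at h1
      have : 0 < σ * Λ⁻¹ := by positivity
      rw [hR]
      linarith
    have hsurj := happ.surjOn_closedBall_of_nonlinearRightInverse S he0 heR
    have h0 : (0 : V n) ∈ closedBall (G p) ((((S.nnnorm : NNReal) : ℝ)⁻¹ - ((⟨σ / 2, by positivity⟩ : NNReal) : ℝ)) * e) := by
      rw [mem_closedBall, dist_comm, dist_zero_right]
      have h1 : (((S.nnnorm : NNReal) : ℝ)⁻¹ - ((⟨σ / 2, by positivity⟩ : NNReal) : ℝ)) * e =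
          ‖g p - p‖ := by
        show ((σ⁻¹)⁻¹ - σ / 2) * e = _
        rw [inv_inv, he]
        field_simp
        ring
      rw [h1]
    obtain ⟨x, hx, hx0⟩ := hsurj h0
    refine ⟨x, ?_, ?_⟩
    · rw [mem_closedBall, dist_eq_norm] at hx
      exact hx
    · exact sub_eq_zero.1 hx0

end

end Pool.Agent.H74.EH
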