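import Pool.Agent.H74.EH.Acm
import Pool.Agent.H74.EH.Newton
import Pool.Agent.H74.G.R_pool_sql_team_seeded_c8625f6e.K4H47.IR.Main

/-!
# Fast returns of `Ω`-stable diffeomorphisms in a chart
-/

set_option autoImplicit false
set_option linter.unusedSectionVars false

open scoped Manifold ContDiff Topology
open Filter Set Metric

universe u

namespace Pool.Agent.H74.EH

open Pool.Agent.H718R2.G Pool.Agent.W564.SC Pool.Agent.W509.SC Pool.Agent.Y368.CL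
open Pool.Agent.K4H47.IR Pool.Agent.K4H47.RH

/-- the exponents -/
def bE (k n : ℕ) : ℕ := ee (2 * k) n (n + 1)

/-- the exponent of the closeness of the returns -/
def aE (k n : ℕ) : ℕ := bE k n + 1

/-- the exponent of the resolvent -/
def sE (k n : ℕ) : ℕ := 2 * bE k n * k + 8

section

variable {n : ℕ} {N : Type u} [TopologicalSpace N] [ChartedSpace (V n) N] {r : ℕ∞}

theorem derBd_mono {F : DiffM n N r} {χ : OpenPartialHomeomorph N (V n)} {m : ℕ} {Λ Λ' : ℝ}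
    (h : DerBd F χ m Λ) (h0 : 0 < Λ) (hle : Λ ≤ Λ') : DerBd F χ m Λ' := by
  have hinv : Λ'⁻¹ ≤ Λ⁻¹ := inv_anti₀ h0 hle
  refine ⟨?_, ?_⟩
  · intro i hi y hy y' hy' h4 h4' hyy hiy hiy4
    obtain ⟨p, q⟩ := h.h1 i hi y hy y' hy' h4 h4' (hyy.trans hinv) hiy hiy4
    exact ⟨p, q.trans (mul_le_mul_of_nonneg_right hle (norm_nonneg _))⟩
  · intro i hi y hy h8 hiy hiy4 x hx
    obtain ⟨p, q, s⟩ := h.h2 i hi y hy h8 hiy hiy4 x (ball_subset_ball hinv hx)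
    exact ⟨p, q.trans hle, s.trans (mul_le_mul_of_nonneg_right hle (norm_nonneg _))⟩

/-- **The derivative at a fast return has no approximate eigenvalues on the unit circle.** -/
theorem loc_res {F : DiffM n N r} {χ : OpenPartialHomeomorph N (V n)} {k : ℕ} (hk : 1 ≤ k) {c : ℝ}
    (hc0 : 0 < c) (hc1 : c ≤ 1)
    (hIR : ∀ (x : N) (j : ℕ) (ρ : ℝ), 0 < ρ → ρ ≤ 1 → IsoRet F χ x j ρ (c * ρ ^ k) →
      RobHyp (fderiv ℝ (fun v => χ (F^[j] (χ.symm v))) (χ x)) (c * ρ ^ (k - 1)))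
    {m : ℕ} {Λ : ℝ} (hD : DerBd F χ m Λ) (hΛ : 16 ≤ Λ) (hΛn : 2 * ((n : ℝ) + 1) ≤ Λ)
    (hΛc : c⁻¹ ≤ Λ) (hm : (m : ℝ) ≤ Λ) {y : N} (hy : y ∈ χ.source) (hy16 : ‖χ y‖ ≤ 1 / 16)
    {t : ℕ} (ht : 1 ≤ t) (htm : t ≤ m) (hts : F^[t] y ∈ χ.source)
    (htv : ‖χ (F^[t] y) - χ y‖ ≤ Λ⁻¹ ^ aE k n) {z : ℂ} (hz : ‖z‖ = 1) (w : V n × V n) :
    Λ⁻¹ ^ sE k n * ‖w‖ ≤ ‖cT (fderiv ℝ (χ ∘ F^[t] ∘ χ.symm) (χ y)) w - cm z w‖ := by
  have hΛ0 : 0 < Λ := by linarith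
  have hL0 : 0 < Λ⁻¹ := inv_pos.2 hΛ0
  have hL1 : Λ⁻¹ ≤ 1 := inv_le_one_of_one_le₀ (by linarith)
  have e16 : Λ⁻¹ ≤ 1 / 16 := by
    rw [one_div]
    exact inv_anti₀ (by norm_num) hΛ
  have hLc : Λ⁻¹ ≤ c := inv_le_of_inv_le₀ hc0 hΛc
  have hAC := acmX hD hΛ y hy hy16
  set P : ℤ → Prop := fun i => it F i y ∈ χ.source ∧ ‖χ (it F i y)‖ ≤ 1 / 4 with hP
  set v : ℤ → V n := fun i => χ (it F i y) - χ y with hv
  have hvn : ∀ j : ℕ, v j = χ (F^[j] y) - χ y := by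
    intro j
    rw [hv]
    simp only [it_nat]
  have hPn : ∀ j : ℕ, P j ↔ (F^[j] y ∈ χ.source ∧ ‖χ (F^[j] y)‖ ≤ 1 / 4) := by
    intro j
    rw [hP]
    simp only [it_nat]
  have hb45 : 45 ≤ c1 n := by unfold c1; omega
  have hk2 : 1 ≤ 2 * k := by omega
  have hPt : P t := by
    rw [hPn]
    refine ⟨hts, ?_⟩
    have h1 : Λ⁻¹ ^ aE k n ≤ Λ⁻¹ ^ 1 := pow_le_pow_of_le_one hL0.le hL1 (by unfold aE; omega)
    rw [pow_one] at h1
    calc ‖χ (F^[t] y)‖ = ‖(χ (F^[t] y) - χ y) + χ y‖ := by rw [sub_add_cancel]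
      _ ≤ ‖χ (F^[t] y) - χ y‖ + ‖χ y‖ := norm_add_le _ _
      _ ≤ 1 / 4 := by linarith
  have hvt : ‖v t‖ ≤ Λ⁻¹ ^ aE k n := by rw [hvn]; exact htv
  obtain ⟨i, hi, q, hq1, hqt, hPq, hvq, hiso⟩ := chain hk2 hAC hΛ hΛn hm ht htm hPt
    (hvt.trans (pow_le_pow_of_le_one hL0.le hL1 (by unfold aE bE; omega)))
  set b := ee (2 * k) n i with hb
  have hbc : c1 n ≤ b := ee_ge _ _ _
  have hbB : b ≤ bE k n := ee_mono hk2 hi
  have hqd : q ∣ t := by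
    refine dvd hAC hΛ hm hq1 hqt htm hPt hPq
      (hvt.trans (pow_le_pow_of_le_one hL0.le hL1 (by unfold aE; omega)))
      (hvq.trans (pow_le_pow_of_le_one hL0.le hL1 ?_)) hiso
    nlinarith
  obtain ⟨hPq1, hPq2⟩ := (hPn q).1 hPq
  rw [hvn] at hvq
  -- robust hyperbolicity at time `q`
  have hk' : k - 1 + 1 = k := by omega
  have hrob := hIR y q (Λ⁻¹ ^ b) (by positivity) (pow_le_one₀ hL0.le hL1)
    ⟨⟨hy, by linarith⟩, hq1, fun j hj1 hj2 hj3 => by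
      by_cases h4 : ‖χ (F^[j] y)‖ ≤ 1 / 4
      · have := hiso j hj1 hj2 ((hPn j).2 ⟨hj3, h4⟩)
        rw [hvn] at this
        exact this.le
      · push Not at h4
        have h5 : Λ⁻¹ ^ b ≤ Λ⁻¹ ^ 1 := pow_le_pow_of_le_one hL0.le hL1 (by omega)
        rw [pow_one] at h5
        have h6 := norm_sub_norm_le (χ (F^[j] y)) (χ y)
        linarith, hPq1, by
      refine hvq.trans ?_
      calc Λ⁻¹ ^ (2 * k * (b + 1)) ≤ Λ⁻¹ ^ (1 + b * k) :=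
            pow_le_pow_of_le_one hL0.le hL1 (by nlinarith)
        _ = Λ⁻¹ * (Λ⁻¹ ^ b) ^ k := by rw [pow_add, pow_one, pow_mul]
        _ ≤ c * (Λ⁻¹ ^ b) ^ k := mul_le_mul_of_nonneg_right hLc (by positivity)⟩
  set ε : ℝ := c * (Λ⁻¹ ^ b) ^ (k - 1) with hε
  have hε0 : 0 < ε := by rw [hε]; positivity
  have hε1 : ε ≤ 1 := by
    rw [hε]
    have : (Λ⁻¹ ^ b) ^ (k - 1) ≤ 1 := pow_le_one₀ (by positivity) (pow_le_one₀ hL0.le hL1)
    have h0 : 0 < (Λ⁻¹ ^ b) ^ (k - 1) := by positivity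
    nlinarith
  have hεl : Λ⁻¹ ^ (2 + 2 * (b * (k - 1))) ≤ ε ^ 2 := by
    rw [hε, mul_pow, pow_add]
    have h1 : Λ⁻¹ ^ 2 ≤ c ^ 2 := pow_le_pow_left₀ hL0.le hLc 2
    have h2 : Λ⁻¹ ^ (2 * (b * (k - 1))) = ((Λ⁻¹ ^ b) ^ (k - 1)) ^ 2 := by
      rw [← pow_mul, ← pow_mul]
      congr 1
      ring
    rw [h2]
    exact mul_le_mul_of_nonneg_right h1 (by positivity)
  have hvq' : ‖v q‖ ≤ ε ^ 2 * Λ⁻¹ ^ 12 := by
    rw [hvn]
    refine hvq.trans ?_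
    calc Λ⁻¹ ^ (2 * k * (b + 1)) ≤ Λ⁻¹ ^ ((2 + 2 * (b * (k - 1))) + 12) := by
          refine pow_le_pow_of_le_one hL0.le hL1 ?_
          obtain ⟨l, rfl⟩ : ∃ l, k = l + 1 := ⟨k - 1, by omega⟩
          rw [Nat.add_sub_cancel]
          nlinarith
      _ = Λ⁻¹ ^ (2 + 2 * (b * (k - 1))) * Λ⁻¹ ^ 12 := pow_add _ _ _
      _ ≤ _ := mul_le_mul_of_nonneg_right hεl (by positivity)
  have hAq : fderiv ℝ (χ ∘ it F (q : ℤ) ∘ χ.symm) (χ y) =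
      fderiv ℝ (fun v => χ (F^[q] (χ.symm v))) (χ y) := by
    rw [it_nat]
    rfl
  have hfin := ret_res hAC hΛ hm hq1 hqt htm hqd hPq hε0 hε1 hvq' (by rw [hAq]; exact hrob) hz w
  rw [it_nat] at hfin
  refine le_trans (mul_le_mul_of_nonneg_right ?_ (norm_nonneg _)) hfin
  calc Λ⁻¹ ^ sE k n ≤ Λ⁻¹ ^ ((2 + 2 * (b * (k - 1))) + 6) := by
        refine pow_le_pow_of_le_one hL0.le hL1 ?_
        unfold sE
        have h1 : b * (k - 1) ≤ bE k n * k := Nat.mul_le_mul hbB (by omega)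
        have h2 : 2 * bE k n * k = 2 * (bE k n * k) := by ring
        omega
    _ = Λ⁻¹ ^ (2 + 2 * (b * (k - 1))) * Λ⁻¹ ^ 6 := pow_add _ _ _
    _ ≤ _ := mul_le_mul_of_nonneg_right hεl (by positivity)

/-- **Newton's method at a fast return.** -/
theorem loc_newton {F : DiffM n N r} {χ : OpenPartialHomeomorph N (V n)} {z₀ : N}
    (hχ : GoodChart n N χ z₀) {m : ℕ} {Λ σ : ℝ} (hD : DerBd F χ m Λ) (hΛ : 16 ≤ Λ) (hσ0 : 0 < σ)
    (hσ1 : σ ≤ 1) {y : N} (hy : y ∈ χ.source) (hy16 : ‖χ y‖ ≤ 1 / 16) {t : ℕ} (htm : t ≤ m)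
    (hts : F^[t] y ∈ χ.source) (ht4 : ‖χ (F^[t] y)‖ ≤ 1 / 4)
    (hL : ∀ x : V n, σ * ‖x‖ ≤ ‖fderiv ℝ (χ ∘ F^[t] ∘ χ.symm) (χ y) x - x‖) :
    (F^[t] y = y → ∀ y' ∈ χ.source, ‖χ y' - χ y‖ < σ * Λ⁻¹ / 2 → F^[t] y' = y' → y' = y) ∧
    (‖χ (F^[t] y) - χ y‖ ≤ σ ^ 2 * Λ⁻¹ / 8 → ∃ x ∈ χ.source, F^[t] x = x ∧
      ‖χ x - χ y‖ ≤ 2 / σ * ‖χ (F^[t] y) - χ y‖) := by
  have hΛ0 : 0 < Λ := by linarith
  have hL0 : 0 < Λ⁻¹ := inv_pos.2 hΛ0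
  have e16 : Λ⁻¹ ≤ 1 / 16 := by
    rw [one_div]
    exact inv_anti₀ (by norm_num) hΛ
  have htz : |(t : ℤ)| ≤ 2 * m := by
    rw [abs_of_nonneg (by positivity)]
    have h1 : (t : ℤ) ≤ m := by exact_mod_cast htm
    have h2 : (0 : ℤ) ≤ m := by positivity
    linarith
  set g : V n → V n := χ ∘ F^[t] ∘ χ.symm with hg
  have hgy : g (χ y) = χ (F^[t] y) := by
    rw [hg]
    simp only [Function.comp]
    rw [χ.left_inv hy]
  obtain ⟨n1, n2⟩ := newton (g := g) (p := χ y) (by linarith : 1 ≤ Λ) hσ0 hσ1 (fun x hx => by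
    obtain ⟨a, b, c⟩ := hD.h2 t htz y hy (by linarith) (by rw [it_nat]; exact hts)
      (by rw [it_nat]; exact ht4) x hx
    rw [it_nat] at a c
    exact ⟨a, c⟩) hL
  constructor
  · intro hyy y' hy' hd hyy'
    have hgy' : g (χ y') = χ y' := by
      rw [hg]
      simp only [Function.comp]
      rw [χ.left_inv hy', hyy']
    have h1 := n1 (χ y') (by rw [mem_ball, dist_eq_norm]; exact hd) (χ y)
      (mem_ball_self (by positivity))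
    rw [hgy', hgy, hyy, sub_self, sub_self, sub_self, norm_zero] at h1
    have h2 : ‖χ y' - χ y‖ ≤ 0 := by
      by_contra h3
      push Not at h3
      have : 0 < σ / 2 * ‖χ y' - χ y‖ := by positivity
      linarith
    have h3 : χ y' = χ y := sub_eq_zero.1 (norm_le_zero_iff.1 h2)
    exact χ.injOn hy' hy h3
  · intro hcl
    rw [← hgy] at hcl
    obtain ⟨x, hx1, hx2⟩ := n2 hcl
    rw [hgy] at hx1 hcl
    have hx3 : ‖x - χ y‖ ≤ Λ⁻¹ := by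
      refine hx1.trans ?_
      calc 2 / σ * ‖χ (F^[t] y) - χ y‖ ≤ 2 / σ * (σ ^ 2 * Λ⁻¹ / 8) :=
            mul_le_mul_of_nonneg_left hcl (by positivity)
        _ = (σ / 4) * Λ⁻¹ := by
          field_simp
          ring
        _ ≤ 1 * Λ⁻¹ := mul_le_mul_of_nonneg_right (by linarith) hL0.le
        _ = Λ⁻¹ := one_mul _
    have hx4 : ‖x‖ ≤ 1 / 4 := by
      calc ‖x‖ = ‖(x - χ y) + χ y‖ := by rw [sub_add_cancel]
        _ ≤ ‖x - χ y‖ + ‖χ y‖ := norm_add_le _ _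
        _ ≤ 1 / 4 := by linarith
    have hxt : x ∈ χ.target := hχ.ball (mem_closedBall_zero_iff.2 (by linarith))
    have hxr : χ (χ.symm x) = x := χ.right_inv hxt
    have hxs : χ.symm x ∈ χ.source := χ.map_target hxt
    have h5 := (hD.h1 t htz y hy (χ.symm x) hxs (by linarith) (by rw [hxr]; exact hx4)
      (by rw [hxr, norm_sub_rev]; exact hx3) (by rw [it_nat]; exact hts)
      (by rw [it_nat]; exact ht4)).1
    rw [it_nat] at h5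
    refine ⟨χ.symm x, hxs, ?_, by rw [hxr]; exact hx1⟩
    refine χ.injOn h5 hxs ?_
    rw [hxr]
    exact hx2

end

end Pool.Agent.H74.EH
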